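import Pool.Agent.Lib.Helper37.ConjBorel.Defs

/-!
# Topological conjugacy is Borel on a dense `Gδ` set of diffeomorphisms: proofs

Outline.

* Analytic sets have the property of Baire (`baireMeasurableSet_of_analyticSet`).
* A canonical measurable selector for closed-set-valued maps (`sel`, `measurable_sel`).
* For a continuous action of a Polish group `G` on a Polish space, the map sending a point to its
  stabilizer is Borel on a dense `Gδ` set `S`; choosing in a Borel way a transversal of the cosets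
  of the stabilizers and applying the Lusin-Souslin theorem shows that the orbit equivalence
  relation is Borel on `S` (`exists_borel`).
* The homeomorphisms of a compact metrizable space form a Polish group acting continuously by
  conjugation on the space of continuous self-maps (`homeo_polishSpace`, `continuous_conjAct`).
* `Diff^∞(M)` with its `C^∞` topology is a Polish space (`polishSpace_diffInf`).
-/

open TopologicalSpace Set Filter Topology MeasureTheory
open scoped Manifold ContDiff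

set_option linter.unusedSectionVars false

namespace Pool.Agent.Lib.Helper37.ConjBorel

section BaireProperty

variable {X : Type*} [TopologicalSpace X]

theorem isMeagre_def {s : Set X} : IsMeagre s ↔ sᶜ ∈ residual X := Iff.rfl

theorem isMeagre_iUnion' {ι : Type*} [Countable ι] {s : ι → Set X} (h : ∀ i, IsMeagre (s i)) :
    IsMeagre (⋃ i, s i) := isMeagre_iUnion h

/-- the open set on which `B` is meagre -/
def meagreLocus [SecondCountableTopology X] (B : Set X) : Set X :=
  ⋃ u ∈ {u ∈ countableBasis X | IsMeagre (u ∩ B)}, u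

/-- A hull of `B` with the property of Baire. -/
def hull [SecondCountableTopology X] (B : Set X) : Set X :=
  ((meagreLocus B)ᶜ ∪ B) ∩ closure B

variable [SecondCountableTopology X]

theorem isOpen_meagreLocus (B : Set X) : IsOpen (meagreLocus B) :=
  isOpen_biUnion fun _ hu => isOpen_of_mem_countableBasis hu.1

theorem isMeagre_meagreLocus_inter (B : Set X) : IsMeagre (meagreLocus B ∩ B) := by
  unfold meagreLocus
  rw [iUnion₂_inter]
  have hc : {u ∈ countableBasis X | IsMeagre (u ∩ B)}.Countable :=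
    (countable_countableBasis X).mono fun u hu => hu.1
  exact isMeagre_biUnion hc fun u hu => hu.2

theorem subset_hull (B : Set X) : B ⊆ hull B := fun _ hx => ⟨Or.inr hx, subset_closure hx⟩

theorem hull_subset_closure (B : Set X) : hull B ⊆ closure B := inter_subset_right

theorem baireMeasurableSet_hull (B : Set X) : BaireMeasurableSet (hull B) := by
  have e : (meagreLocus B)ᶜ ∪ B = (meagreLocus B)ᶜ ∪ (meagreLocus B ∩ B) := by
    ext x
    by_cases hx : x ∈ meagreLocus B <;> simp [hx]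
  have h1 : BaireMeasurableSet ((meagreLocus B)ᶜ ∪ B) := by
    rw [e]
    exact (isOpen_meagreLocus B).baireMeasurableSet.compl.union
      (isMeagre_meagreLocus_inter B).baireMeasurableSet
  have h2 : BaireMeasurableSet (closure B) :=
    BaireMeasurableSet.of_compl isClosed_closure.isOpen_compl.baireMeasurableSet
  exact h1.inter h2

theorem isMeagre_hull_diff {B D : Set X} (hBD : B ⊆ D) (hD : BaireMeasurableSet D) :
    IsMeagre (hull B \ D) := by
  obtain ⟨O, hO, hDO⟩ := hD.compl.residualEq_isOpen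
  rw [eventuallyEq_set] at hDO
  -- `O ∩ B` is meagre
  have h1 : O ⊆ meagreLocus B := by
    intro x hx
    obtain ⟨u, hu, hxu, huO⟩ := (isBasis_countableBasis X).exists_subset_of_mem_open hx hO
    refine mem_biUnion (x := u) ⟨hu, ?_⟩ hxu
    show (u ∩ B)ᶜ ∈ residual X
    filter_upwards [hDO] with y hy hyB
    exact (hy.2 (huO hyB.1)) (hBD hyB.2)
  show (hull B \ D)ᶜ ∈ residual X
  filter_upwards [hDO] with y hy hyB
  have h2 : y ∈ O := hy.1 hyB.2
  rcases hyB.1.1 with h3 | h3
  · exact h3 (h1 h2)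
  · exact hyB.2 (hBD h3)

/-- **Nikodym**: analytic sets have the property of Baire. -/
theorem baireMeasurableSet_of_analyticSet [T3Space X] {s : Set X} (hs : AnalyticSet s) :
    BaireMeasurableSet s := by
  rw [AnalyticSet] at hs
  rcases hs with rfl | ⟨f, hf, rfl⟩
  · exact isOpen_empty.baireMeasurableSet
  let A : (n : ℕ) → (Fin n → ℕ) → Set X := fun n v => f '' {σ | ∀ i : Fin n, σ i = v i}
  have hA : ∀ n v, A n v ⊆ ⋃ k, A (n + 1) (Fin.snoc v k : Fin (n + 1) → ℕ) := by
    rintro n v _ ⟨σ, hσ, rfl⟩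
    refine mem_iUnion.2 ⟨σ n, σ, ?_, rfl⟩
    intro i
    refine Fin.lastCases ?_ (fun j => ?_) i
    · simp
    · simpa using hσ j
  have hA0 : A 0 Fin.elim0 = range f := by
    ext x
    constructor
    · rintro ⟨σ, -, rfl⟩; exact mem_range_self σ
    · rintro ⟨σ, rfl⟩; exact ⟨σ, fun i => i.elim0, rfl⟩
  set Q : Set X := ⋃ p : Σ n, (Fin n → ℕ),
    (hull (A p.1 p.2) \ ⋃ k, hull (A (p.1 + 1) (Fin.snoc p.2 k : Fin (p.1 + 1) → ℕ))) with hQ
  have hQm : IsMeagre Q := by
    refine isMeagre_iUnion fun p => isMeagre_hull_diff ?_ ?_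
    · exact (hA p.1 p.2).trans (iUnion_mono fun k => subset_hull _)
    · exact BaireMeasurableSet.iUnion fun k => baireMeasurableSet_hull _
  have key : hull (range f) \ range f ⊆ Q := by
    rintro x ⟨hx, hxf⟩
    by_contra hxQ
    have step : ∀ n (v : Fin n → ℕ), ∃ k : ℕ, x ∈ hull (A n v) →
        x ∈ hull (A (n + 1) (Fin.snoc v k : Fin (n + 1) → ℕ)) := by
      intro n v
      by_cases h : x ∈ hull (A n v)
      · have : x ∈ ⋃ k, hull (A (n + 1) (Fin.snoc v k : Fin (n + 1) → ℕ)) := by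
          by_contra h'
          exact hxQ (mem_iUnion.2 ⟨⟨n, v⟩, h, h'⟩)
        obtain ⟨k, hk⟩ := mem_iUnion.1 this
        exact ⟨k, fun _ => hk⟩
      · exact ⟨0, fun h' => absurd h' h⟩
    choose K hK using step
    let V : (n : ℕ) → (Fin n → ℕ) := fun n => Nat.rec (motive := fun n => Fin n → ℕ) Fin.elim0
      (fun n v => (Fin.snoc v (K n v) : Fin (n + 1) → ℕ)) n
    have hV : ∀ n, V (n + 1) = (Fin.snoc (V n) (K n (V n)) : Fin (n + 1) → ℕ) := fun n => rfl
    let σ : ℕ → ℕ := fun n => K n (V n)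
    have hVσ : ∀ n (i : Fin n), V n i = σ i := by
      intro n
      induction n with
      | zero => intro i; exact i.elim0
      | succ n ih =>
        intro i
        rw [hV]
        refine Fin.lastCases ?_ (fun j => ?_) i
        · simp [σ]
        · simpa using ih j
    have hxV : ∀ n, x ∈ hull (A n (V n)) := by
      intro n
      induction n with
      | zero => rw [show V 0 = Fin.elim0 from rfl, hA0]; exact hx
      | succ n ih => rw [hV]; exact hK n (V n) ih
    have hcl : ∀ n, x ∈ closure (f '' {τ | ∀ i < n, τ i = σ i}) := by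
      intro n
      have h1 := hull_subset_closure _ (hxV n)
      have h2 : {τ : ℕ → ℕ | ∀ i : Fin n, τ i = V n i} = {τ | ∀ i < n, τ i = σ i} := by
        ext τ
        constructor
        · intro h i hi
          have := h ⟨i, hi⟩
          rw [hVσ] at this
          exact this
        · intro h i
          rw [hVσ]
          exact h i i.2
      rw [← h2]
      exact h1
    -- `x = f σ`
    have hxσ : x = f σ := by
      by_contra hne
      obtain ⟨W, hW, hWc, hWx⟩ := exists_mem_nhds_isClosed_subset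
        (isOpen_ne.mem_nhds (Ne.symm hne) : {y | y ≠ x} ∈ 𝓝 (f σ))
      have h1 : f ⁻¹' W ∈ 𝓝 σ := hf.continuousAt hW
      rw [nhds_pi, Filter.mem_pi] at h1
      obtain ⟨J, hJ, t, ht, hsub⟩ := h1
      obtain ⟨n, hn⟩ := hJ.bddAbove
      have h2 : f '' {τ | ∀ i < n + 1, τ i = σ i} ⊆ W := by
        rintro _ ⟨τ, hτ, rfl⟩
        refine hsub fun i hi => ?_
        rw [hτ i (Nat.lt_succ_of_le (hn hi))]
        exact mem_of_mem_nhds (ht i)
      have h3 := closure_minimal h2 hWc (hcl (n + 1))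
      exact hWx h3 rfl
    exact hxf ⟨σ, hxσ.symm⟩
  have h1 : range f = hull (range f) \ (hull (range f) \ range f) := by
    rw [sdiff_sdiff_right_self]
    exact (inter_eq_self_of_subset_right (subset_hull _)).symm
  rw [h1]
  exact (baireMeasurableSet_hull _).diff (hQm.mono key).baireMeasurableSet

end BaireProperty

section Selection

variable {G : Type*} [MetricSpace G] [CompleteSpace G] [SecondCountableTopology G] [Nonempty G]

/-- open sets used in the construction of the selector -/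
def cell (r : ℝ) (n : ℕ) : Set G := Metric.ball (denseSeq G n) r

open Classical in
/-- indices of the approximations of the selected point -/
noncomputable def idx (F : Set G) : ℕ → ℕ
  | 0 => sInf {n | (F ∩ cell 1 n).Nonempty}
  | k + 1 => sInf {n | (F ∩ (cell ((1 / 2) ^ (k + 1)) n ∩ cell ((1 / 2) ^ k) (idx F k))).Nonempty}

/-- the selected point -/
noncomputable def sel (F : Set G) : G := limUnder atTop fun k => denseSeq G (idx F k)

theorem exists_cell (x : G) {r : ℝ} (hr : 0 < r) : ∃ n, x ∈ (cell r n : Set G) := by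
  obtain ⟨n, hn⟩ := (denseRange_denseSeq G).exists_dist_lt x hr
  exact ⟨n, hn⟩

theorem idx_spec {F : Set G} (hF : F.Nonempty) (k : ℕ) :
    (F ∩ cell ((1 / 2) ^ k) (idx F k)).Nonempty := by
  induction k with
  | zero =>
    obtain ⟨x, hx⟩ := hF
    obtain ⟨n, hn⟩ := exists_cell x (one_pos)
    have : (sInf {n | (F ∩ cell 1 n).Nonempty}) ∈ {n | (F ∩ cell 1 n).Nonempty} :=
      Nat.sInf_mem ⟨n, x, hx, hn⟩
    simpa [idx] using this
  | succ k ih =>
    obtain ⟨x, hx, hxk⟩ := ih
    obtain ⟨n, hn⟩ := exists_cell x (r := (1 / 2) ^ (k + 1)) (by positivity)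
    have : idx F (k + 1) ∈
        {n | (F ∩ (cell ((1 / 2) ^ (k + 1)) n ∩ cell ((1 / 2) ^ k) (idx F k))).Nonempty} :=
      Nat.sInf_mem ⟨n, x, hx, hn, hxk⟩
    obtain ⟨y, hy, hy', -⟩ := this
    exact ⟨y, hy, hy'⟩

theorem dist_idx_succ {F : Set G} (hF : F.Nonempty) (k : ℕ) :
    dist (denseSeq G (idx F k)) (denseSeq G (idx F (k + 1))) ≤ 2 * (1 / 2) ^ k := by
  obtain ⟨x, hx, hxk⟩ := idx_spec hF k
  obtain ⟨n, hn⟩ := exists_cell x (r := (1 / 2) ^ (k + 1)) (by positivity)
  have : idx F (k + 1) ∈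
      {n | (F ∩ (cell ((1 / 2) ^ (k + 1)) n ∩ cell ((1 / 2) ^ k) (idx F k))).Nonempty} :=
    Nat.sInf_mem ⟨n, x, hx, hn, hxk⟩
  obtain ⟨y, hy, hy1, hy2⟩ := this
  have h1 : dist y (denseSeq G (idx F (k + 1))) < (1 / 2) ^ (k + 1) := hy1
  have h2 : dist y (denseSeq G (idx F k)) < (1 / 2) ^ k := hy2
  calc dist (denseSeq G (idx F k)) (denseSeq G (idx F (k + 1)))
      ≤ dist y (denseSeq G (idx F k)) + dist y (denseSeq G (idx F (k + 1))) :=
        dist_triangle_left _ _ _
    _ ≤ (1 / 2) ^ k + (1 / 2) ^ (k + 1) := add_le_add h2.le h1.le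
    _ ≤ 2 * (1 / 2) ^ k := by
        rw [pow_succ]
        have : (0 : ℝ) < (1 / 2) ^ k := by positivity
        linarith

theorem tendsto_idx {F : Set G} (hF : F.Nonempty) :
    Tendsto (fun k => denseSeq G (idx F k)) atTop (𝓝 (sel F)) := by
  have : CauchySeq fun k => denseSeq G (idx F k) :=
    cauchySeq_of_le_geometric (1 / 2) 2 (by norm_num) fun k => dist_idx_succ hF k
  exact this.tendsto_limUnder

theorem sel_mem {F : Set G} (hF : F.Nonempty) (hFc : IsClosed F) : sel F ∈ F := by
  have hcl : sel F ∈ closure F → sel F ∈ F := fun h => by rwa [hFc.closure_eq] at h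
  apply hcl
  rw [Metric.mem_closure_iff]
  intro ε hε
  have h1 : ∀ᶠ k in atTop, dist (denseSeq G (idx F k)) (sel F) < ε / 2 :=
    (Metric.tendsto_nhds.1 (tendsto_idx hF)) (ε / 2) (by positivity)
  have h2 : ∀ᶠ k : ℕ in atTop, (1 / 2 : ℝ) ^ k < ε / 2 :=
    (tendsto_pow_atTop_nhds_zero_of_lt_one (by norm_num) (by norm_num)).eventually_lt_const
      (by positivity)
  obtain ⟨k, hk1, hk2⟩ := (h1.and h2).exists
  obtain ⟨x, hx, hxk⟩ := idx_spec hF k
  have hxk' : dist x (denseSeq G (idx F k)) < (1 / 2) ^ k := hxk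
  refine ⟨x, hx, ?_⟩
  calc dist (sel F) x ≤ dist (denseSeq G (idx F k)) (sel F) + dist x (denseSeq G (idx F k)) := by
        rw [dist_comm (sel F) x, dist_comm (denseSeq G (idx F k)) (sel F), add_comm]
        exact dist_triangle x _ _ |>.trans (by rw [dist_comm (denseSeq G (idx F k)) (sel F)])
    _ < ε / 2 + ε / 2 := add_lt_add hk1 (hxk'.trans hk2)
    _ = ε := by ring

theorem measurable_sInf_nat {Z : Type*} [MeasurableSpace Z] {P : Z → ℕ → Prop}
    (hP : ∀ n, MeasurableSet {z | P z n}) (hex : ∀ z, ∃ n, P z n) :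
    Measurable fun z => sInf {n | P z n} := by
  classical
  have e : (fun z => sInf {n | P z n}) = fun z => Nat.find (hex z) := by
    funext z
    exact Nat.sInf_def (s := {n | P z n}) (hex z)
  rw [e]
  exact measurable_find hex hP

/-- The Kuratowski and Ryll-Nardzewski selection theorem, for the canonical selector `sel`. -/
theorem measurable_sel {Z : Type*} [MeasurableSpace Z] [MeasurableSpace G] [BorelSpace G]
    (F : Z → Set G) (hne : ∀ z, (F z).Nonempty)
    (hF : ∀ V : Set G, IsOpen V → MeasurableSet {z | (F z ∩ V).Nonempty}) :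
    Measurable fun z => sel (F z) := by
  have hidx : ∀ k, Measurable fun z => idx (F z) k := by
    intro k
    induction k with
    | zero =>
      refine measurable_sInf_nat (fun n => hF _ Metric.isOpen_ball) fun z => ?_
      obtain ⟨x, hx⟩ := hne z
      obtain ⟨n, hn⟩ := exists_cell x one_pos
      exact ⟨n, x, hx, hn⟩
    | succ k ih =>
      refine measurable_sInf_nat (fun n => ?_) fun z => ?_
      · have e : {z | (F z ∩ (cell ((1 / 2) ^ (k + 1)) n ∩
            cell ((1 / 2) ^ k) (idx (F z) k))).Nonempty} = ⋃ m : ℕ, ({z | idx (F z) k = m} ∩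
            {z | (F z ∩ (cell ((1 / 2) ^ (k + 1)) n ∩ cell ((1 / 2) ^ k) m)).Nonempty}) := by
          ext z
          simp only [mem_ofPred_eq, mem_iUnion, mem_inter_iff]
          constructor
          · intro h
            exact ⟨_, rfl, h⟩
          · rintro ⟨m, hm, h⟩
            rw [hm]
            exact h
        rw [e]
        exact MeasurableSet.iUnion fun m => (ih (measurableSet_singleton m)).inter
          (hF _ (Metric.isOpen_ball.inter Metric.isOpen_ball))
      · obtain ⟨x, hx, hxk⟩ := idx_spec (hne z) k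
        obtain ⟨n, hn⟩ := exists_cell x (r := (1 / 2) ^ (k + 1)) (by positivity)
        exact ⟨n, x, hx, hn, hxk⟩
  exact measurable_of_tendsto_metrizable (fun k => (measurable_of_countable _).comp (hidx k))
    (tendsto_pi_nhds.2 fun z => tendsto_idx (hne z))

end Selection

section Main

variable {X G Y : Type*} [TopologicalSpace X] [PolishSpace X]
  [TopologicalSpace G] [Group G] [IsTopologicalGroup G] [PolishSpace G]
  [TopologicalSpace Y] [PolishSpace Y]

/-- On a suitable dense `Gδ` set, the orbit equivalence relation of a continuous action of a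
Polish group is Borel. -/
theorem exists_borel (a : G → Y → Y) (ha : Continuous fun p : G × Y => a p.1 p.2)
    (a1 : ∀ y, a 1 y = y) (amul : ∀ g h y, a (g * h) y = a g (a h y))
    (j : X → Y) (hj : Continuous j) (R : Set X) (hR : IsGδ R) (hRd : Dense R) :
    ∃ S ⊆ R, IsGδ S ∧ Dense S ∧
      @MeasurableSet (X × Y) (borel (X × Y)) {p | p.1 ∈ S ∧ ∃ g, a g (j p.1) = p.2} := by
  classical
  let _ : MeasurableSpace X := borel X
  have _ : BorelSpace X := ⟨rfl⟩
  let _ : MeasurableSpace G := borel G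
  have _ : BorelSpace G := ⟨rfl⟩
  let _ : MeasurableSpace Y := borel Y
  have _ : BorelSpace Y := ⟨rfl⟩
  -- the sets of points whose stabilizer meets a given open set
  let A : Set G → Set X := fun U => {x | ∃ g ∈ U, a g (j x) = j x}
  have hfix : IsClosed {p : X × G | a p.2 (j p.1) = j p.1} :=
    isClosed_eq (ha.comp (continuous_snd.prodMk (hj.comp continuous_fst)))
      (hj.comp continuous_fst)
  have hAan : ∀ U : Set G, IsOpen U → AnalyticSet (A U) := by
    intro U hU
    have h1 : MeasurableSet {p : X × G | a p.2 (j p.1) = j p.1 ∧ p.2 ∈ U} :=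
      hfix.measurableSet.inter (hU.measurableSet.preimage measurable_snd)
    have h2 := h1.analyticSet.image_of_continuous continuous_fst
    convert! h2 using 1
    ext x
    constructor
    · rintro ⟨g, hg, hx⟩
      exact ⟨(x, g), ⟨hx, hg⟩, rfl⟩
    · rintro ⟨⟨x', g⟩, ⟨hx, hg⟩, rfl⟩
      exact ⟨g, hg, hx⟩
  have hAop : ∀ U : Set G, IsOpen U → ∃ O : Set X, IsOpen O ∧ A U =ᵇ O := fun U hU =>
    (baireMeasurableSet_of_analyticSet (hAan U hU)).residualEq_isOpen
  choose! O hOo hAO using hAop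
  -- the good set
  have hcb : (countableBasis G).Countable := countable_countableBasis G
  have hres : R ∩ ⋂ U ∈ countableBasis G, {x | x ∈ A U ↔ x ∈ O U} ∈ residual X := by
    refine inter_mem (residual_of_dense_Gδ hR hRd) ?_
    rw [countable_bInter_mem hcb]
    intro U hU
    exact eventuallyEq_set.1 (hAO U (isOpen_of_mem_countableBasis hU))
  obtain ⟨S, hS, hSG, hSd⟩ := mem_residual.1 hres
  refine ⟨S, fun x hx => (hS hx).1, hSG, hSd, ?_⟩
  have hSA : ∀ x ∈ S, ∀ U ∈ countableBasis G, (x ∈ A U ↔ x ∈ O U) := fun x hx U hU =>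
    (mem_iInter₂.1 (hS hx).2 U hU)
  let _ := upgradeIsCompletelyMetrizable G
  -- the cosets of the stabilizers
  let F : S × G → Set G := fun z => {g | a g (j z.1) = a z.2 (j z.1)}
  have hFne : ∀ z, (F z).Nonempty := fun z => ⟨z.2, rfl⟩
  have hFc : ∀ z, IsClosed (F z) := fun z =>
    isClosed_eq (ha.comp (continuous_id.prodMk continuous_const)) continuous_const
  have hFmeas : ∀ V : Set G, IsOpen V → MeasurableSet {z | (F z ∩ V).Nonempty} := by
    intro V hV
    have e : {z : S × G | (F z ∩ V).Nonempty} = ⋃ p ∈ {p : Set G × Set G |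
        p.1 ∈ countableBasis G ∧ p.2 ∈ countableBasis G ∧ ∀ g ∈ p.1, ∀ h ∈ p.2, g * h ∈ V},
        {z : S × G | z.2 ∈ p.1 ∧ (z.1 : X) ∈ O p.2} := by
      ext z
      simp only [mem_iUnion, mem_ofPred_eq, exists_prop]
      constructor
      · rintro ⟨g, hg, hgV⟩
        have hg' : a g (j z.1) = a z.2 (j z.1) := hg
        have hcont : Continuous fun p : G × G => p.1 * p.2 := continuous_mul
        have hmem : (z.2, z.2⁻¹ * g) ∈ (fun p : G × G => p.1 * p.2) ⁻¹' V := by
          simpa using hgV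
        obtain ⟨u, v, hu, hv, hzu, hzv, hsub⟩ :=
          isOpen_prod_iff.1 (hV.preimage hcont) z.2 (z.2⁻¹ * g) hmem
        obtain ⟨U₁, hU₁, hzU₁, hU₁u⟩ :=
          (isBasis_countableBasis G).exists_subset_of_mem_open hzu hu
        obtain ⟨U₂, hU₂, hzU₂, hU₂v⟩ :=
          (isBasis_countableBasis G).exists_subset_of_mem_open hzv hv
        have hprod : ∀ g₁ ∈ U₁, ∀ g₂ ∈ U₂, g₁ * g₂ ∈ V := fun g₁ hg₁ g₂ hg₂ =>
          hsub (show (g₁, g₂) ∈ u ×ˢ v from ⟨hU₁u hg₁, hU₂v hg₂⟩)
        refine ⟨(U₁, U₂), ⟨hU₁, hU₂, hprod⟩, hzU₁, ?_⟩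
        refine (hSA z.1 z.1.2 U₂ hU₂).1 ⟨z.2⁻¹ * g, hzU₂, ?_⟩
        rw [amul, hg', ← amul, inv_mul_cancel, a1]
      · rintro ⟨⟨U₁, U₂⟩, ⟨hU₁, hU₂, hsub⟩, hz₁, hz₂⟩
        obtain ⟨h, hh, hfix⟩ := (hSA z.1 z.1.2 U₂ hU₂).2 hz₂
        refine ⟨z.2 * h, ?_, hsub _ hz₁ _ hh⟩
        show a (z.2 * h) (j z.1) = a z.2 (j z.1)
        rw [amul, hfix]
    rw [e]
    refine MeasurableSet.biUnion ?_ fun p hp => ?_
    · refine (hcb.prod hcb).mono ?_
      rintro ⟨U₁, U₂⟩ ⟨h1, h2, -⟩
      exact ⟨h1, h2⟩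
    · refine (measurable_snd (isOpen_of_mem_countableBasis hp.1).measurableSet).inter ?_
      exact (measurable_subtype_coe.comp measurable_fst)
        (hOo p.2 (isOpen_of_mem_countableBasis hp.2.1)).measurableSet
  have hsel : Measurable fun z : S × G => sel (F z) := measurable_sel F hFne hFmeas
  -- the transversal
  have hT : MeasurableSet {z : S × G | sel (F z) = z.2} :=
    measurableSet_eq_fun hsel measurable_snd
  have hSm : MeasurableSet S := hSG.measurableSet
  have hT' : MeasurableSet ((fun z : S × G => ((z.1 : X), z.2)) '' {z : S × G | sel (F z) = z.2}) := by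
    have hemb : MeasurableEmbedding (fun z : S × G => ((z.1 : X), z.2)) :=
      (MeasurableEmbedding.subtype_coe hSm).prodMap MeasurableEmbedding.id
    exact hemb.measurableSet_image.2 hT
  set T : Set (X × G) := (fun z : S × G => ((z.1 : X), z.2)) '' {z : S × G | sel (F z) = z.2}
    with hTdef
  have hcont : Continuous fun p : X × G => (p.1, a p.2 (j p.1)) :=
    continuous_fst.prodMk (ha.comp (continuous_snd.prodMk (hj.comp continuous_fst)))
  have hinj : InjOn (fun p : X × G => (p.1, a p.2 (j p.1))) T := by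
    rintro _ ⟨⟨x, g⟩, hz, rfl⟩ _ ⟨⟨x', g'⟩, hz', rfl⟩ heq
    simp only [Prod.mk.injEq] at heq
    have hx : x = x' := Subtype.ext heq.1
    subst hx
    have hF : F (x, g) = F (x, g') := by
      ext h
      show a h (j x) = a g (j x) ↔ a h (j x) = a g' (j x)
      rw [heq.2]
    have h1 : sel (F (x, g)) = g := hz
    have h2 : sel (F (x, g')) = g' := hz'
    rw [← h1, hF, h2]
  have himg := MeasurableSet.image_of_continuousOn_injOn hT' hcont.continuousOn hinj
  have hb : (borel (X × Y)) = (Prod.instMeasurableSpace : MeasurableSpace (X × Y)) :=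
    (BorelSpace.measurable_eq (α := X × Y)).symm
  rw [hb]
  convert himg using 1
  ext ⟨x, y⟩
  constructor
  · rintro ⟨hx, g, hg⟩
    have hmem : sel (F (⟨x, hx⟩, g)) ∈ F (⟨x, hx⟩, g) := sel_mem (hFne _) (hFc _)
    set g' := sel (F (⟨x, hx⟩, g)) with hg'
    have hga : a g' (j x) = a g (j x) := hmem
    have hF : F (⟨x, hx⟩, g') = F (⟨x, hx⟩, g) := by
      ext h
      show a h (j x) = a g' (j x) ↔ a h (j x) = a g (j x)
      rw [hga]
    refine ⟨(x, g'), ⟨(⟨x, hx⟩, g'), ?_, rfl⟩, ?_⟩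
    · show sel (F (⟨x, hx⟩, g')) = g'
      rw [hF]
    · show (x, a g' (j x)) = (x, y)
      rw [hga]
      exact Prod.ext rfl hg
  · rintro ⟨_, ⟨⟨x', g⟩, hz, rfl⟩, heq⟩
    simp only [Prod.mk.injEq] at heq
    obtain ⟨rfl, rfl⟩ := heq
    exact ⟨x'.2, g, rfl⟩

end Main


section HomeoGroup

theorem polishSpace_continuousMap (K Y : Type*) [TopologicalSpace K] [CompactSpace K] [T2Space K]
    [SecondCountableTopology K] [TopologicalSpace Y] [PolishSpace Y] : PolishSpace C(K, Y) := by
  let _ := upgradeIsCompletelyMetrizable Y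
  infer_instance

/-- the topology of uniform convergence of `h` and `h⁻¹` on the group of homeomorphisms -/
@[reducible]
def homeoTopology (M : Type*) [TopologicalSpace M] : TopologicalSpace (M ≃ₜ M) :=
  TopologicalSpace.induced (fun h : M ≃ₜ M => ((h : C(M, M)), (h.symm : C(M, M)))) inferInstance

variable {M : Type*} [TopologicalSpace M] [CompactSpace M] [T2Space M] [SecondCountableTopology M]

attribute [local instance] homeoTopology

theorem continuous_homeo_fst : Continuous fun h : M ≃ₜ M => (h : C(M, M)) := by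
  have : Continuous fun h : M ≃ₜ M => ((h : C(M, M)), (h.symm : C(M, M))) :=
    continuous_induced_dom
  exact continuous_fst.comp this

theorem continuous_homeo_snd : Continuous fun h : M ≃ₜ M => (h.symm : C(M, M)) := by
  have : Continuous fun h : M ≃ₜ M => ((h : C(M, M)), (h.symm : C(M, M))) :=
    continuous_induced_dom
  exact continuous_snd.comp this

instance homeo_isTopologicalGroup : IsTopologicalGroup (M ≃ₜ M) where
  continuous_mul := by
    refine continuous_induced_rng.2 (Continuous.prodMk ?_ ?_)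
    · exact (continuous_homeo_fst.comp continuous_fst).compCM
        (continuous_homeo_fst.comp continuous_snd)
    · exact (continuous_homeo_snd.comp continuous_snd).compCM
        (continuous_homeo_snd.comp continuous_fst)
  continuous_inv := by
    refine continuous_induced_rng.2 (Continuous.prodMk ?_ ?_)
    · exact continuous_homeo_snd
    · exact continuous_homeo_fst

theorem homeo_polishSpace : PolishSpace (M ≃ₜ M) := by
  have : PolishSpace C(M, M) := by
    have : PolishSpace M := by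
      let _ := metrizableSpaceMetric M
      infer_instance
    exact polishSpace_continuousMap M M
  have hemb : IsClosedEmbedding
      (fun h : M ≃ₜ M => ((h : C(M, M)), (h.symm : C(M, M)))) := by
    refine ⟨⟨⟨rfl⟩, ?_⟩, ?_⟩
    · intro h k hk
      simp only [Prod.mk.injEq] at hk
      ext x
      exact DFunLike.congr_fun hk.1 x
    · have e : range (fun h : M ≃ₜ M => ((h : C(M, M)), (h.symm : C(M, M)))) =
          {p | p.1.comp p.2 = ContinuousMap.id M} ∩ {p | p.2.comp p.1 = ContinuousMap.id M} := by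
        ext p
        constructor
        · rintro ⟨h, rfl⟩
          constructor <;> · ext x; simp
        · rintro ⟨h1, h2⟩
          refine ⟨⟨⟨p.1, p.2, fun x => DFunLike.congr_fun h2 x, fun x => DFunLike.congr_fun h1 x⟩,
            p.1.continuous, p.2.continuous⟩, ?_⟩
          rfl
      rw [e]
      exact (isClosed_eq (continuous_fst.compCM continuous_snd) continuous_const).inter
        (isClosed_eq (continuous_snd.compCM continuous_fst) continuous_const)
  exact hemb.polishSpace

/-- the conjugation action -/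
def conjAct (h : M ≃ₜ M) (f : C(M, M)) : C(M, M) := (h : C(M, M)).comp (f.comp (h.symm : C(M, M)))

theorem continuous_conjAct : Continuous fun p : (M ≃ₜ M) × C(M, M) => conjAct p.1 p.2 :=
  (continuous_homeo_fst.comp continuous_fst).compCM
    (continuous_snd.compCM (continuous_homeo_snd.comp continuous_fst))

theorem conjAct_one (f : C(M, M)) : conjAct 1 f = f := by
  ext x; rfl

theorem conjAct_mul (g h : M ≃ₜ M) (f : C(M, M)) : conjAct (g * h) f = conjAct g (conjAct h f) := by
  ext x; rfl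

end HomeoGroup

section Reg

variable {Z : Type*} [TopologicalSpace Z]
variable {E F F' : Type*} [NormedAddCommGroup E] [NormedSpace ℝ E] [NormedAddCommGroup F]
  [NormedSpace ℝ F] [NormedAddCommGroup F'] [NormedSpace ℝ F']

/-- A family `G z : E → F` of functions, depending on a parameter `z`, is regular at `(z₀, x₀)`,
up to order `n`, if it consists of functions which are smooth near `x₀` and if the derivatives of
order at most `n` depend continuously on `(z, x)` at `(z₀, x₀)`. -/
def RegN (n : ℕ∞) (G : Z → E → F) (z₀ : Z) (x₀ : E) : Prop :=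
  (∀ᶠ p : Z × E in 𝓝 (z₀, x₀), ContDiffAt ℝ ∞ (G p.1) p.2) ∧
    ∀ k : ℕ, (k : ℕ∞) ≤ n → ContinuousAt (fun p : Z × E => iteratedFDeriv ℝ k (G p.1) p.2) (z₀, x₀)

theorem eventually_slice {P : Z × E → Prop} {z₀ : Z} {x₀ : E} (h : ∀ᶠ p in 𝓝 (z₀, x₀), P p) :
    ∀ᶠ p : Z × E in 𝓝 (z₀, x₀), ∀ᶠ x in 𝓝 p.2, P (p.1, x) := by
  filter_upwards [eventually_eventually_nhds.2 h] with p hp
  have : Tendsto (fun x : E => (p.1, x)) (𝓝 p.2) (𝓝 (p.1, p.2)) :=
    (continuous_const.prodMk continuous_id).continuousAt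
  exact this.eventually hp

theorem RegN.congr {n : ℕ∞} {G G' : Z → E → F} {z₀ : Z} {x₀ : E} (h : RegN n G z₀ x₀)
    (hG : ∀ᶠ p : Z × E in 𝓝 (z₀, x₀), G p.1 p.2 = G' p.1 p.2) : RegN n G' z₀ x₀ := by
  have hs := eventually_slice (P := fun p => G p.1 p.2 = G' p.1 p.2) hG
  have hs' : ∀ᶠ p : Z × E in 𝓝 (z₀, x₀), G p.1 =ᶠ[𝓝 p.2] G' p.1 := hs
  refine ⟨?_, fun k hk => ?_⟩
  · filter_upwards [h.1, hs'] with p hp hp'
    exact hp.congr_of_eventuallyEq hp'.symm
  · refine (h.2 k hk).congr ?_
    filter_upwards [hs'] with p hp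
    exact (Filter.EventuallyEq.iteratedFDeriv ℝ (f₁ := G p.1) (f₂ := G' p.1) hp k).eq_of_nhds

theorem RegN.mono {n m : ℕ∞} {G : Z → E → F} {z₀ : Z} {x₀ : E} (h : RegN n G z₀ x₀)
    (hmn : m ≤ n) : RegN m G z₀ x₀ :=
  ⟨h.1, fun k hk => h.2 k (hk.trans hmn)⟩

theorem RegN.continuousAt {n : ℕ∞} {G : Z → E → F} {z₀ : Z} {x₀ : E} (h : RegN n G z₀ x₀) :
    ContinuousAt (fun p : Z × E => G p.1 p.2) (z₀, x₀) := by
  have h0 := h.2 0 (by simp)
  have e : (fun p : Z × E => G p.1 p.2) = fun p : Z × E =>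
      continuousMultilinearCurryFin0 ℝ E F (iteratedFDeriv ℝ 0 (G p.1) p.2) := by
    funext p
    simp
  rw [e]
  exact (continuousMultilinearCurryFin0 ℝ E F).continuous.continuousAt.comp h0

theorem regN_of_contDiffOn {n : ℕ∞} {f : E → F} {s : Set E} (hs : IsOpen s)
    (hf : ContDiffOn ℝ ∞ f s) (z₀ : Z) {x₀ : E} (hx : x₀ ∈ s) : RegN n (fun _ : Z => f) z₀ x₀ := by
  refine ⟨?_, fun k _ => ?_⟩
  · have : ∀ᶠ p : Z × E in 𝓝 (z₀, x₀), p.2 ∈ s :=
      continuous_snd.continuousAt (hs.mem_nhds hx)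
    filter_upwards [this] with p hp
    exact hf.contDiffAt (hs.mem_nhds hp)
  · have h1 : ContinuousAt (iteratedFDeriv ℝ k f) x₀ := by
      have h2 := (hf.continuousOn_iteratedFDerivWithin (m := k) (by exact_mod_cast le_top)
        hs.uniqueDiffOn)
      have h3 : EqOn (iteratedFDerivWithin ℝ k f s) (iteratedFDeriv ℝ k f) s :=
        iteratedFDerivWithin_of_isOpen k hs
      exact (h2.congr fun x hx => (h3 hx).symm).continuousAt (hs.mem_nhds hx)
    exact ContinuousAt.comp (f := fun p : Z × E => p.2) (x := (z₀, x₀)) h1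
      continuous_snd.continuousAt

theorem RegN.comp {n : ℕ∞} {G : Z → F → F'} {H : Z → E → F} {z₀ : Z} {x₀ : E}
    (hG : RegN n G z₀ (H z₀ x₀)) (hH : RegN n H z₀ x₀) :
    RegN n (fun z => G z ∘ H z) z₀ x₀ := by
  have hHc := hH.continuousAt
  have hmap : ContinuousAt (fun p : Z × E => (p.1, H p.1 p.2)) (z₀, x₀) :=
    continuous_fst.continuousAt.prodMk hHc
  have hGs : ∀ᶠ p : Z × E in 𝓝 (z₀, x₀), ContDiffAt ℝ ∞ (G p.1) (H p.1 p.2) :=
    hmap.eventually hG.1
  refine ⟨?_, fun k hk => ?_⟩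
  · filter_upwards [hH.1, hGs] with p hp hp'
    exact hp'.comp p.2 hp
  · have e : (fun p : Z × E => ∑ c : OrderedFinpartition k,
        c.compAlongOrderedFinpartitionL ℝ E F F' (iteratedFDeriv ℝ c.length (G p.1) (H p.1 p.2))
          (fun m => iteratedFDeriv ℝ (c.partSize m) (H p.1) p.2)) =ᶠ[𝓝 (z₀, x₀)]
        fun p : Z × E => iteratedFDeriv ℝ k (G p.1 ∘ H p.1) p.2 := by
      filter_upwards [hH.1, hGs] with p hp hp'
      rw [iteratedFDeriv_comp hp' hp (by exact_mod_cast le_top)]
      rfl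
    refine ContinuousAt.congr ?_ e
    refine tendsto_finsetSum _ fun c _ => ?_
    have h1 : ContinuousAt (fun p : Z × E =>
        iteratedFDeriv ℝ c.length (G p.1) (H p.1 p.2)) (z₀, x₀) := by
      have := hG.2 c.length ((by exact_mod_cast c.length_le : (c.length : ℕ∞) ≤ k).trans hk)
      exact ContinuousAt.comp (f := fun p : Z × E => (p.1, H p.1 p.2)) (x := (z₀, x₀)) this hmap
    have h2 : ContinuousAt (fun p : Z × E =>
        fun m => iteratedFDeriv ℝ (c.partSize m) (H p.1) p.2) (z₀, x₀) := by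
      refine continuousAt_pi.2 fun m => ?_
      exact hH.2 _ ((by exact_mod_cast c.partSize_le m : (c.partSize m : ℕ∞) ≤ k).trans hk)
    have h3 : ContinuousAt (fun p : Z × E => c.compAlongOrderedFinpartitionL ℝ E F F'
        (iteratedFDeriv ℝ c.length (G p.1) (H p.1 p.2))) (z₀, x₀) :=
      (c.compAlongOrderedFinpartitionL ℝ E F F').continuous.continuousAt.comp h1
    exact h3.eval h2

theorem RegN.derivReg {n : ℕ} {G : Z → E → F} {z₀ : Z} {x₀ : E}
    (h : RegN ((n + 1 : ℕ) : ℕ∞) G z₀ x₀) :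
    RegN (n : ℕ∞) (fun z => fderiv ℝ (G z)) z₀ x₀ := by
  refine ⟨?_, fun k hk => ?_⟩
  · filter_upwards [h.1] with p hp
    exact hp.fderiv_right (m := ∞) (by simp)
  · have h1 := h.2 (k + 1) (by
      have : k ≤ n := by exact_mod_cast hk
      exact_mod_cast Nat.succ_le_succ this)
    have e : (fun p : Z × E => iteratedFDeriv ℝ k (fderiv ℝ (G p.1)) p.2) =
        fun p : Z × E => continuousMultilinearCurryRightEquiv' ℝ k E F
          (iteratedFDeriv ℝ (k + 1) (G p.1) p.2) := by
      funext p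
      rw [iteratedFDeriv_succ_eq_comp_right]
      simp
    rw [e]
    exact (continuousMultilinearCurryRightEquiv' ℝ k E F).continuous.continuousAt.comp h1

theorem RegN.ofDerivReg {n : ℕ} {G : Z → E → F} {z₀ : Z} {x₀ : E} (h0 : RegN 0 G z₀ x₀)
    (h : RegN (n : ℕ∞) (fun z => fderiv ℝ (G z)) z₀ x₀) :
    RegN ((n + 1 : ℕ) : ℕ∞) G z₀ x₀ := by
  refine ⟨h0.1, fun k hk => ?_⟩
  rcases k with _ | k
  · exact h0.2 0 (by simp)
  · have hk' : k ≤ n := by
      have : k + 1 ≤ n + 1 := by exact_mod_cast hk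
      omega
    have h1 := h.2 k (by exact_mod_cast hk')
    have e : (fun p : Z × E => iteratedFDeriv ℝ (k + 1) (G p.1) p.2) =
        fun p : Z × E => (continuousMultilinearCurryRightEquiv' ℝ k E F).symm
          (iteratedFDeriv ℝ k (fderiv ℝ (G p.1)) p.2) := by
      funext p
      rw [iteratedFDeriv_succ_eq_comp_right]
      rfl
    rw [e]
    exact (continuousMultilinearCurryRightEquiv' ℝ k E F).symm.continuous.continuousAt.comp h1

theorem regN_top_iff {G : Z → E → F} {z₀ : Z} {x₀ : E} :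
    RegN ⊤ G z₀ x₀ ↔ ∀ n : ℕ, RegN (n : ℕ∞) G z₀ x₀ := by
  constructor
  · intro h n
    exact h.mono le_top
  · intro h
    exact ⟨(h 0).1, fun k _ => (h k).2 k le_rfl⟩

end Reg

section RegInv

variable {Z : Type*} [TopologicalSpace Z]
variable {E : Type*} [NormedAddCommGroup E] [NormedSpace ℝ E] [CompleteSpace E]

/-- Regularity of the family of inverse functions. -/
theorem RegN.inverse {G L : Z → E → E} {z₀ : Z} {y₀ : E} (hG : RegN ⊤ G z₀ (L z₀ y₀))
    (hL : RegN 0 L z₀ y₀)
    (h1 : ∀ᶠ p : Z × E in 𝓝 (z₀, y₀), G p.1 (L p.1 p.2) = p.2)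
    (h2 : ∀ᶠ p : Z × E in 𝓝 (z₀, L z₀ y₀), L p.1 (G p.1 p.2) = p.2) : RegN ⊤ L z₀ y₀ := by
  rw [regN_top_iff]
  have hLc := hL.continuousAt
  have hmap : ContinuousAt (fun p : Z × E => (p.1, L p.1 p.2)) (z₀, y₀) :=
    continuous_fst.continuousAt.prodMk hLc
  -- formula for the derivative
  have hev : ∀ᶠ p : Z × E in 𝓝 (z₀, y₀),
      fderiv ℝ (L p.1) p.2 = (fderiv ℝ (G p.1) (L p.1 p.2)).inverse ∧
      (∃ e : E ≃L[ℝ] E, (e : E →L[ℝ] E) = fderiv ℝ (G p.1) (L p.1 p.2)) := by
    filter_upwards [hL.1, hmap.eventually hG.1, eventually_slice (P := fun p => G p.1 (L p.1 p.2) = p.2) h1,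
      hmap.eventually (eventually_slice (P := fun p => L p.1 (G p.1 p.2) = p.2) h2),
      h1] with p hp1 hp2 hp3 hp4 hp5
    have d1 : DifferentiableAt ℝ (L p.1) p.2 := hp1.differentiableAt (by simp)
    have d2 : DifferentiableAt ℝ (G p.1) (L p.1 p.2) := hp2.differentiableAt (by simp)
    have c1 : (fderiv ℝ (G p.1) (L p.1 p.2)).comp (fderiv ℝ (L p.1) p.2) =
        ContinuousLinearMap.id ℝ E := by
      rw [← fderiv_comp p.2 d2 d1]
      have : (G p.1 ∘ L p.1) =ᶠ[𝓝 p.2] id := hp3
      rw [this.fderiv_eq, fderiv_id]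
    have c2 : (fderiv ℝ (L p.1) p.2).comp (fderiv ℝ (G p.1) (L p.1 p.2)) =
        ContinuousLinearMap.id ℝ E := by
      have d1' : DifferentiableAt ℝ (L p.1) (G p.1 (L p.1 p.2)) := by rw [hp5]; exact d1
      have := fderiv_comp (L p.1 p.2) d1' d2
      rw [hp5] at this
      rw [← this]
      have h3 : (L p.1 ∘ G p.1) =ᶠ[𝓝 (L p.1 p.2)] id := hp4
      rw [h3.fderiv_eq, fderiv_id]
    refine ⟨(ContinuousLinearMap.inverse_eq c1 c2).symm, ?_⟩
    exact ⟨ContinuousLinearEquiv.equivOfInverse _ _ (fun x => DFunLike.congr_fun c2 x)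
      (fun x => DFunLike.congr_fun c1 x), rfl⟩
  intro n
  induction n with
  | zero => exact_mod_cast hL
  | succ n ih =>
    refine RegN.ofDerivReg hL ?_
    have hGd : RegN (n : ℕ∞) (fun z => fderiv ℝ (G z)) z₀ (L z₀ y₀) :=
      RegN.derivReg (hG.mono le_top)
    have hcomp : RegN (n : ℕ∞) (fun z => fderiv ℝ (G z) ∘ L z) z₀ y₀ := hGd.comp ih
    obtain ⟨e, he⟩ := hev.self_of_nhds.2
    have hinv : RegN (n : ℕ∞) (fun _ : Z => (ContinuousLinearMap.inverse :
        (E →L[ℝ] E) → (E →L[ℝ] E))) z₀ ((fderiv ℝ (G z₀) ∘ L z₀) y₀) := by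
      have hopen : IsOpen (range ((↑) : (E ≃L[ℝ] E) → (E →L[ℝ] E))) :=
        ContinuousLinearEquiv.isOpen
      refine regN_of_contDiffOn hopen ?_ z₀ ⟨e, he⟩
      rintro _ ⟨e', rfl⟩
      exact (contDiffAt_map_inverse e').contDiffWithinAt
    refine (hinv.comp hcomp).congr ?_
    filter_upwards [hev] with p hp
    exact hp.1.symm

end RegInv

section Cover

variable {n : ℕ} {M : Type*} [TopologicalSpace M] [ChartedSpace (Euc n) M]

/-- coordinate expressions of smooth maps are smooth -/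
theorem contDiffOn_expr {f : M → M} (hf : ContMDiff (𝓡 n) (𝓡 n) ∞ f)
    {φ ψ : OpenPartialHomeomorph M (Euc n)} (hφ : φ ∈ IsManifold.maximalAtlas (𝓡 n) ∞ M)
    (hψ : ψ ∈ IsManifold.maximalAtlas (𝓡 n) ∞ M) :
    ContDiffOn ℝ ∞ (ψ ∘ f ∘ φ.symm) (φ.target ∩ {x | f (φ.symm x) ∈ ψ.source}) := by
  rw [← contMDiffOn_iff_contDiffOn]
  have h1 : ContMDiffOn (𝓡 n) (𝓡 n) ∞ φ.symm (φ.target ∩ {x | f (φ.symm x) ∈ ψ.source}) :=
    (contMDiffOn_symm_of_mem_maximalAtlas hφ).mono inter_subset_left
  have h2 : ContMDiffOn (𝓡 n) (𝓡 n) ∞ (f ∘ φ.symm)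
      (φ.target ∩ {x | f (φ.symm x) ∈ ψ.source}) := hf.comp_contMDiffOn h1
  exact (contMDiffOn_of_mem_maximalAtlas hψ).comp h2 fun x hx => hx.2

theorem isOpen_expr {f : M → M} (hf : Continuous f) (φ ψ : OpenPartialHomeomorph M (Euc n)) :
    IsOpen (φ.target ∩ {x | f (φ.symm x) ∈ ψ.source}) :=
  φ.symm.isOpen_inter_preimage (ψ.open_source.preimage hf)

theorem contDiffOn_expr_vec {F : Type*} [NormedAddCommGroup F] [NormedSpace ℝ F] {u : M → F}
    (hu : ContMDiff (𝓡 n) 𝓘(ℝ, F) ∞ u) {φ : OpenPartialHomeomorph M (Euc n)}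
    (hφ : φ ∈ IsManifold.maximalAtlas (𝓡 n) ∞ M) : ContDiffOn ℝ ∞ (u ∘ φ.symm) φ.target := by
  rw [← contMDiffOn_iff_contDiffOn]
  exact hu.comp_contMDiffOn (contMDiffOn_symm_of_mem_maximalAtlas hφ)

/-- change of charts -/
theorem contDiffOn_change {φ ψ : OpenPartialHomeomorph M (Euc n)}
    (hφ : φ ∈ IsManifold.maximalAtlas (𝓡 n) ∞ M) (hψ : ψ ∈ IsManifold.maximalAtlas (𝓡 n) ∞ M) :
    ContDiffOn ℝ ∞ (ψ ∘ φ.symm) (φ.target ∩ {x | φ.symm x ∈ ψ.source}) :=
  contDiffOn_expr (f := id) contMDiff_id hφ hψ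

variable (n M) in
/-- A finite atlas of `M`, together with compact sets `K i` in the images of the charts whose
interiors cover `M`, and an embedding `e` of `M` into a normed space `F` from which the charts
can be recovered. -/
structure GoodCover (ι F : Type*) [NormedAddCommGroup F] [NormedSpace ℝ F] where
  φ : ι → OpenPartialHomeomorph M (Euc n)
  mem : ∀ i, φ i ∈ IsManifold.maximalAtlas (𝓡 n) ∞ M
  K : ι → Set (Euc n)
  compact : ∀ i, IsCompact (K i)
  subset : ∀ i, K i ⊆ (φ i).target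
  subset_closure : ∀ i, K i ⊆ closure (interior (K i))
  e : M → F
  smooth : ContMDiff (𝓡 n) 𝓘(ℝ, F) ∞ e
  emb : IsClosedEmbedding e
  π : ι → F →L[ℝ] Euc n
  cover : ∀ m, ∃ i, m ∈ (φ i).source ∧ φ i m ∈ interior (K i) ∧ ∀ᶠ m' in 𝓝 m, π i (e m') = φ i m'

theorem exists_goodCover.{u} {M : Type u} [TopologicalSpace M] [ChartedSpace (Euc n) M]
    [T2Space M] [CompactSpace M] [IsManifold (𝓡 n) ∞ M] :
    ∃ (ι : Type u) (_ : Fintype ι), Nonempty (GoodCover n M ι (ι → Euc n × ℝ)) := by
  obtain ⟨ι, f, -⟩ := SmoothBumpCovering.exists_isSubordinate (𝓡 n) (M := M)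
    isClosed_univ (fun x _ => univ_mem)
  have hfin := f.fintype
  refine ⟨ι, hfin, ⟨?_⟩⟩
  have hsm : ContMDiff (𝓡 n) 𝓘(ℝ, ι → Euc n × ℝ) ∞
      (fun x i => ((f i x • chartAt (Euc n) (f.c i) x, f i x) : Euc n × ℝ)) := by
    refine contMDiff_pi_space.2 fun i => ?_
    exact ((f i).contMDiff_smul contMDiffOn_extChartAt).prodMk_space (f i).contMDiff
  have hinj : Function.Injective
      (fun x i => ((f i x • chartAt (Euc n) (f.c i) x, f i x) : Euc n × ℝ)) := by
    intro x y h
    simp only [funext_iff] at h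
    obtain ⟨h₁, h₂⟩ := Prod.mk_inj.1 (h (f.ind x (mem_univ x)))
    rw [f.apply_ind x (mem_univ x)] at h₂
    rw [← h₂, f.apply_ind x (mem_univ x), one_smul, one_smul] at h₁
    have := f.mem_extChartAt_source_of_eq_one h₂.symm
    exact (extChartAt (𝓡 n) (f.c _)).injOn (f.mem_extChartAt_ind_source x (mem_univ x)) this h₁
  refine
    { φ := fun i => chartAt (Euc n) (f.c i)
      mem := fun i => IsManifold.chart_mem_maximalAtlas _
      K := fun i => Metric.closedBall (chartAt (Euc n) (f.c i) (f.c i)) (f i).rOut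
      compact := fun i => isCompact_closedBall _ _
      subset := fun i => ?_
      subset_closure := fun i => ?_
      e := fun x i => (f i x • chartAt (Euc n) (f.c i) x, f i x)
      smooth := hsm
      emb := hsm.continuous.isClosedEmbedding hinj
      π := fun i => (ContinuousLinearMap.fst ℝ (Euc n) ℝ).comp (ContinuousLinearMap.proj i)
      cover := fun m => ⟨f.ind m (mem_univ m), f.mem_chartAt_ind_source m (mem_univ m), ?_, ?_⟩ }
  · have := (f i).closedBall_subset
    simpa using this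
  · rw [interior_closedBall _ (f i).rOut_pos.ne', closure_ball _ (f i).rOut_pos.ne']
  · rw [interior_closedBall _ (f _).rOut_pos.ne']
    have h1 : m ∈ Function.support (f (f.ind m (mem_univ m))) := by
      rw [Function.mem_support, f.apply_ind m (mem_univ m)]
      exact one_ne_zero
    rw [(f _).support_eq_inter_preimage] at h1
    simpa using h1.2
  · filter_upwards [f.eventuallyEq_one m (mem_univ m)] with m' hm'
    simp only [ContinuousLinearMap.comp_apply, ContinuousLinearMap.proj_apply,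
      ContinuousLinearMap.coe_fst']
    rw [hm', Pi.one_apply, one_smul]

end Cover

section JC

variable {n : ℕ} {M : Type*} [TopologicalSpace M] [ChartedSpace (Euc n) M]
variable {Z : Type*} [TopologicalSpace Z]

/-- The family `g z` of self-maps of `M` depends continuously on the parameter `z`, together with
all its derivatives, in all charts. -/
def JC (g : Z → M → M) : Prop :=
  (Continuous fun p : Z × M => g p.1 p.2) ∧
    ∀ φ ∈ IsManifold.maximalAtlas (𝓡 n) ∞ M, ∀ ψ ∈ IsManifold.maximalAtlas (𝓡 n) ∞ M,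
      ∀ (z₀ : Z) (x₀ : Euc n), x₀ ∈ φ.target → g z₀ (φ.symm x₀) ∈ ψ.source →
        RegN ⊤ (fun z => ψ ∘ g z ∘ φ.symm) z₀ x₀

/-- the family of all diffeomorphisms, parametrized by the space `Diff^∞(M)` -/
theorem mem_basicSet_self {f : DiffInf n M} {φ ψ : OpenPartialHomeomorph M (Euc n)}
    {C : Set (Euc n)} {k : ℕ} {ε : ℝ} (hε : 0 < ε) (h : ∀ x ∈ C, f (φ.symm x) ∈ ψ.source) :
    f ∈ basicSet f φ ψ C k ε :=
  ⟨h, fun x _ => by simpa using hε⟩

theorem basicSet_mem_nhds {f : DiffInf n M} {φ ψ : OpenPartialHomeomorph M (Euc n)}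
    (hφ : φ ∈ IsManifold.maximalAtlas (𝓡 n) ∞ M) (hψ : ψ ∈ IsManifold.maximalAtlas (𝓡 n) ∞ M)
    {C : Set (Euc n)} (hC : IsCompact C) (hCφ : C ⊆ φ.target) {k : ℕ} {ε : ℝ} (hε : 0 < ε)
    (h : ∀ x ∈ C, f (φ.symm x) ∈ ψ.source) : basicSet f φ ψ C k ε ∈ 𝓝 f :=
  IsOpen.mem_nhds (isOpen_generateFrom_of_mem ⟨f, φ, ψ, C, k, ε, hφ, hψ, hC, hCφ, h, hε, rfl⟩)
    (mem_basicSet_self hε h)

/-- a compact neighbourhood on which the coordinate expression makes sense -/
theorem exists_compact_nhd {f : M → M} (hf : Continuous f) {φ ψ : OpenPartialHomeomorph M (Euc n)}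
    {x₀ : Euc n} (hx : x₀ ∈ φ.target) (hfx : f (φ.symm x₀) ∈ ψ.source) :
    ∃ C : Set (Euc n), IsCompact C ∧ C ∈ 𝓝 x₀ ∧ C ⊆ φ.target ∧
      ∀ x ∈ C, f (φ.symm x) ∈ ψ.source := by
  obtain ⟨C, hC, hCs, hCc⟩ := local_compact_nhds ((isOpen_expr hf φ ψ).mem_nhds ⟨hx, hfx⟩)
  exact ⟨C, hCc, hC, fun x hx => (hCs hx).1, fun x hx => (hCs hx).2⟩

theorem regN_id (φ ψ : OpenPartialHomeomorph M (Euc n))
    (hφ : φ ∈ IsManifold.maximalAtlas (𝓡 n) ∞ M) (hψ : ψ ∈ IsManifold.maximalAtlas (𝓡 n) ∞ M)
    (f : DiffInf n M) (x₀ : Euc n) (hx : x₀ ∈ φ.target) (hfx : f (φ.symm x₀) ∈ ψ.source) :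
    RegN ⊤ (fun g : DiffInf n M => ψ ∘ g ∘ φ.symm) f x₀ ∧
      ∀ᶠ p : DiffInf n M × Euc n in 𝓝 (f, x₀), p.1 (φ.symm p.2) ∈ ψ.source := by
  obtain ⟨C, hCc, hC, hCφ, hCψ⟩ := exists_compact_nhd f.continuous hx hfx
  have hCi : ∀ᶠ p : DiffInf n M × Euc n in 𝓝 (f, x₀), p.2 ∈ C :=
    continuous_snd.continuousAt.eventually hC
  have hbasic : ∀ (k : ℕ) (ε : ℝ), 0 < ε →
      ∀ᶠ p : DiffInf n M × Euc n in 𝓝 (f, x₀), p.1 ∈ basicSet f φ ψ C k ε := fun k ε hε =>
    continuous_fst.continuousAt.eventually (basicSet_mem_nhds hφ hψ hCc hCφ hε hCψ)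
  have hsrc : ∀ᶠ p : DiffInf n M × Euc n in 𝓝 (f, x₀), p.1 (φ.symm p.2) ∈ ψ.source := by
    filter_upwards [hCi, hbasic 0 1 one_pos] with p hp1 hp2
    exact hp2.1 _ hp1
  refine ⟨⟨?_, fun k _ => ?_⟩, hsrc⟩
  · filter_upwards [hCi, hsrc] with p hp1 hp2
    exact (contDiffOn_expr p.1.contMDiff hφ hψ).contDiffAt
      ((isOpen_expr p.1.continuous φ ψ).mem_nhds ⟨hCφ hp1, hp2⟩)
  · have h1 : ContinuousAt (iteratedFDeriv ℝ k (ψ ∘ f ∘ φ.symm)) x₀ := by
      have h2 : RegN ⊤ (fun _ : Unit => ψ ∘ f ∘ φ.symm) () x₀ :=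
        regN_of_contDiffOn (isOpen_expr f.continuous φ ψ) (contDiffOn_expr f.contMDiff hφ hψ) ()
          ⟨hx, hfx⟩
      exact ContinuousAt.comp (f := fun x : Euc n => ((), x)) (x := x₀) (h2.2 k le_top)
        (continuous_const.prodMk continuous_id).continuousAt
    rw [Metric.continuousAt_iff'] at h1 ⊢
    intro ε hε
    filter_upwards [hCi, hbasic k (ε / 2) (by positivity),
      (continuous_snd.continuousAt (x := ((f, x₀) : DiffInf n M × Euc n))).eventually
        (h1 (ε / 2) (by positivity))] with p hp1 hp2 hp3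
    calc dist (iteratedFDeriv ℝ k (ψ ∘ p.1 ∘ φ.symm) p.2) (iteratedFDeriv ℝ k (ψ ∘ f ∘ φ.symm) x₀)
        ≤ dist (iteratedFDeriv ℝ k (ψ ∘ p.1 ∘ φ.symm) p.2)
            (iteratedFDeriv ℝ k (ψ ∘ f ∘ φ.symm) p.2) +
          dist (iteratedFDeriv ℝ k (ψ ∘ f ∘ φ.symm) p.2)
            (iteratedFDeriv ℝ k (ψ ∘ f ∘ φ.symm) x₀) := dist_triangle _ _ _
      _ < ε / 2 + ε / 2 := by
          refine add_lt_add ?_ hp3
          rw [dist_eq_norm]
          exact hp2.2 _ hp1
      _ = ε := by ring

theorem jc_id [IsManifold (𝓡 n) ∞ M] : JC (n := n) (fun g : DiffInf n M => (g : M → M)) := by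
  refine ⟨?_, fun φ hφ ψ hψ f x₀ hx hfx => (regN_id φ ψ hφ hψ f x₀ hx hfx).1⟩
  rw [continuous_iff_continuousAt]
  rintro ⟨f, m₀⟩
  set φ := chartAt (Euc n) m₀
  set ψ := chartAt (Euc n) (f m₀)
  have hφ : φ ∈ IsManifold.maximalAtlas (𝓡 n) ∞ M := IsManifold.chart_mem_maximalAtlas _
  have hψ : ψ ∈ IsManifold.maximalAtlas (𝓡 n) ∞ M := IsManifold.chart_mem_maximalAtlas _
  have hm : m₀ ∈ φ.source := mem_chart_source _ _
  have hfm : f m₀ ∈ ψ.source := mem_chart_source _ _
  have hx : φ m₀ ∈ φ.target := φ.map_source hm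
  have hfx : f (φ.symm (φ m₀)) ∈ ψ.source := by rwa [φ.left_inv hm]
  obtain ⟨hreg, hsrc⟩ := regN_id φ ψ hφ hψ f (φ m₀) hx hfx
  have hmap : ContinuousAt (fun p : DiffInf n M × M => (p.1, φ p.2)) (f, m₀) :=
    continuous_fst.continuousAt.prodMk ((φ.continuousAt hm).comp continuous_snd.continuousAt)
  have h1 : ContinuousAt (fun p : DiffInf n M × M => ψ (p.1 (φ.symm (φ p.2)))) (f, m₀) :=
    ContinuousAt.comp (f := fun p : DiffInf n M × M => (p.1, φ p.2)) (x := (f, m₀))
      (g := fun p : DiffInf n M × Euc n => (ψ ∘ p.1 ∘ φ.symm) p.2) hreg.continuousAt hmap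
  have h2 : ContinuousAt (fun p : DiffInf n M × M => ψ.symm (ψ (p.1 (φ.symm (φ p.2)))))
      (f, m₀) := by
    refine ContinuousAt.comp (f := fun p : DiffInf n M × M => ψ (p.1 (φ.symm (φ p.2))))
      (g := ψ.symm) ?_ h1
    apply ψ.symm.continuousAt
    simp only
    rw [φ.left_inv hm]
    exact ψ.map_source hfm
  refine h2.congr ?_
  filter_upwards [continuous_snd.continuousAt.eventually (φ.open_source.mem_nhds hm),
    hmap.eventually hsrc] with p hp1 hp2
  have hp2' : p.1 (φ.symm (φ p.2)) ∈ ψ.source := hp2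
  rw [ψ.left_inv hp2', φ.left_inv hp1]

/-- a family with `JC` is continuous into `Diff^∞(M)` -/
theorem continuous_of_jc [IsManifold (𝓡 n) ∞ M] {g : Z → DiffInf n M}
    (hg : JC (n := n) fun z => (g z : M → M)) : Continuous g := by
  refine continuous_generateFrom_iff.2 ?_
  rintro _ ⟨f, φ, ψ, C, k, ε, hφ, hψ, hC, hCφ, hCψ, hε, rfl⟩
  rw [isOpen_iff_mem_nhds]
  intro z₀ hz₀
  have hcont : ∀ x ∈ C, ContinuousAt (fun p : Z × Euc n => g p.1 (φ.symm p.2)) (z₀, x) := by
    intro x hx
    exact hg.1.continuousAt.comp (f := fun p : Z × Euc n => (p.1, φ.symm p.2)) (x := (z₀, x))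
      (continuous_fst.continuousAt.prodMk
        ((φ.symm.continuousAt (hCφ hx)).comp continuous_snd.continuousAt))
  have h1 : ∀ᶠ z in 𝓝 z₀, ∀ x ∈ C, g z (φ.symm x) ∈ ψ.source := by
    refine hC.eventually_forall_of_forall_eventually fun x hx => ?_
    exact (hcont x hx).eventually (ψ.open_source.mem_nhds (hz₀.1 x hx))
  have h2 : ∀ᶠ z in 𝓝 z₀, ∀ x ∈ C,
      ‖iteratedFDeriv ℝ k (ψ ∘ g z ∘ φ.symm) x - iteratedFDeriv ℝ k (ψ ∘ f ∘ φ.symm) x‖ < ε := by
    refine hC.eventually_forall_of_forall_eventually fun x hx => ?_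
    have hr := hg.2 φ hφ ψ hψ z₀ x (hCφ hx) (hz₀.1 x hx)
    have h3 := hr.2 k le_top
    have h4 : RegN ⊤ (fun _ : Z => ψ ∘ f ∘ φ.symm) z₀ x :=
      regN_of_contDiffOn (isOpen_expr f.continuous φ ψ) (contDiffOn_expr f.contMDiff hφ hψ) z₀
        ⟨hCφ hx, hCψ x hx⟩
    have h5 := (h3.sub (h4.2 k le_top)).norm
    exact h5.eventually_lt_const (hz₀.2 x hx)
  filter_upwards [h1, h2] with z hz1 hz2
  exact ⟨hz1, hz2⟩

/-- inversion preserves `JC` -/
theorem JC.inv [IsManifold (𝓡 n) ∞ M] [CompactSpace M] [T2Space M] {g : Z → DiffInf n M}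
    (hg : JC (n := n) fun z => (g z : M → M)) : JC (n := n) fun z => ((g z).symm : M → M) := by
  have hc : Continuous fun p : Z × M => (g p.1).symm p.2 := by
    rw [continuous_iff_isClosed]
    intro D hD
    have h1 : IsClosed {q : (Z × M) × M | q.2 ∈ D ∧ g q.1.1 q.2 = q.1.2} := by
      refine (hD.preimage continuous_snd).inter (isClosed_eq ?_ ?_)
      · exact hg.1.comp ((continuous_fst.comp continuous_fst).prodMk continuous_snd)
      · exact continuous_snd.comp continuous_fst
    have h2 : IsClosed (Prod.fst '' {q : (Z × M) × M | q.2 ∈ D ∧ g q.1.1 q.2 = q.1.2}) :=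
      isClosedMap_fst_of_compactSpace _ h1
    convert h2 using 1
    ext ⟨z, y⟩
    constructor
    · intro h
      exact ⟨((z, y), (g z).symm y), ⟨h, (g z).apply_symm_apply y⟩, rfl⟩
    · rintro ⟨⟨⟨z', y'⟩, m⟩, ⟨hm, hgm⟩, heq⟩
      simp only [Prod.mk.injEq] at heq
      obtain ⟨rfl, rfl⟩ := heq
      simp only at hgm hm
      show (g z').symm y' ∈ D
      rw [← hgm, (g z').symm_apply_apply]
      exact hm
  refine ⟨hc, fun φ hφ ψ hψ z₀ x₀ hx hfx => ?_⟩
  set m₀ := (g z₀).symm (φ.symm x₀) with hm₀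
  have hfx : m₀ ∈ ψ.source := hfx
  set x₁ := ψ m₀ with hx₁
  have hx₁t : x₁ ∈ ψ.target := ψ.map_source hfx
  have hgm : g z₀ (ψ.symm x₁) = φ.symm x₀ := by
    rw [hx₁, ψ.left_inv hfx, hm₀, (g z₀).apply_symm_apply]
  have hG : RegN ⊤ (fun z => φ ∘ g z ∘ ψ.symm) z₀ ((ψ ∘ (g z₀).symm ∘ φ.symm) x₀) := by
    refine hg.2 ψ hψ φ hφ z₀ x₁ hx₁t ?_
    simp only
    rw [hgm]
    exact φ.map_target hx
  have hcc : ContinuousAt (fun p : Z × Euc n => (g p.1).symm (φ.symm p.2)) (z₀, x₀) :=
    hc.continuousAt.comp (f := fun p : Z × Euc n => (p.1, φ.symm p.2)) (x := (z₀, x₀))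
      (continuous_fst.continuousAt.prodMk
        ((φ.symm.continuousAt hx).comp continuous_snd.continuousAt))
  have hev1 : ∀ᶠ p : Z × Euc n in 𝓝 (z₀, x₀), p.2 ∈ φ.target ∧
      (g p.1).symm (φ.symm p.2) ∈ ψ.source :=
    (continuous_snd.continuousAt.eventually (φ.open_target.mem_nhds hx)).and
      (hcc.eventually (ψ.open_source.mem_nhds hfx))
  have hcc' : ContinuousAt (fun p : Z × Euc n => g p.1 (ψ.symm p.2)) (z₀, x₁) :=
    hg.1.continuousAt.comp (f := fun p : Z × Euc n => (p.1, ψ.symm p.2)) (x := (z₀, x₁))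
      (continuous_fst.continuousAt.prodMk
        (ContinuousAt.comp (f := fun p : Z × Euc n => p.2) (x := (z₀, x₁))
          (ψ.symm.continuousAt hx₁t) continuous_snd.continuousAt))
  have hev2 : ∀ᶠ p : Z × Euc n in 𝓝 (z₀, x₁), p.2 ∈ ψ.target ∧
      g p.1 (ψ.symm p.2) ∈ φ.source := by
    refine (continuous_snd.continuousAt.eventually (ψ.open_target.mem_nhds hx₁t)).and
      (hcc'.eventually (φ.open_source.mem_nhds ?_))
    simp only
    rw [hgm]
    exact φ.map_target hx
  refine RegN.inverse hG ⟨?_, fun k hk => ?_⟩ ?_ ?_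
  · filter_upwards [hev1] with p hp
    exact (contDiffOn_expr (g p.1).symm.contMDiff hφ hψ).contDiffAt
      ((isOpen_expr (g p.1).symm.continuous φ ψ).mem_nhds ⟨hp.1, hp.2⟩)
  · have hk0 : k = 0 := by
      have : (k : ℕ∞) = 0 := le_antisymm hk (by simp)
      exact_mod_cast this
    subst hk0
    have h1 : ContinuousAt (fun p : Z × Euc n => ψ ((g p.1).symm (φ.symm p.2))) (z₀, x₀) :=
      (ψ.continuousAt hfx).comp (f := fun p : Z × Euc n => (g p.1).symm (φ.symm p.2))
        (x := (z₀, x₀)) hcc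
    exact (continuousMultilinearCurryFin0 ℝ (Euc n) (Euc n)).symm.continuous.continuousAt.comp h1
  · filter_upwards [hev1] with p hp
    simp only [Function.comp_apply]
    rw [ψ.left_inv hp.2, (g p.1).apply_symm_apply, φ.right_inv hp.1]
  · filter_upwards [hev2] with p hp
    simp only [Function.comp_apply]
    rw [φ.left_inv hp.2, (g p.1).symm_apply_apply, ψ.right_inv hp.1]

end JC

section Jet

variable {n : ℕ} {M : Type*} [TopologicalSpace M] [ChartedSpace (Euc n) M]
variable {Z : Type*} [TopologicalSpace Z]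
variable {ι F : Type*} [NormedAddCommGroup F] [NormedSpace ℝ F] (A : GoodCover n M ι F)

/-- the expression of `e ∘ g` in the chart `φ i` -/
def ex (g : M → M) (i : ι) : Euc n → F := A.e ∘ g ∘ (A.φ i).symm

theorem contDiffOn_ex {g : M → M} (hg : ContMDiff (𝓡 n) (𝓡 n) ∞ g) (i : ι) :
    ContDiffOn ℝ ∞ (ex A g i) (A.φ i).target :=
  contDiffOn_expr_vec (u := A.e ∘ g) (A.smooth.comp hg) (A.mem i)

theorem JC.regN_ex [IsManifold (𝓡 n) ∞ M] {g : Z → M → M} (hg : JC (n := n) g) (i : ι) (z₀ : Z) (x₀ : Euc n)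
    (hx : x₀ ∈ (A.φ i).target) : RegN ⊤ (fun z => ex A (g z) i) z₀ x₀ := by
  set ψ := chartAt (Euc n) (g z₀ ((A.φ i).symm x₀)) with hψdef
  have hψ : ψ ∈ IsManifold.maximalAtlas (𝓡 n) ∞ M := IsManifold.chart_mem_maximalAtlas _
  have hsrc : g z₀ ((A.φ i).symm x₀) ∈ ψ.source := mem_chart_source _ _
  have h1 : RegN ⊤ (fun z => ψ ∘ g z ∘ (A.φ i).symm) z₀ x₀ := hg.2 _ (A.mem i) ψ hψ z₀ x₀ hx hsrc
  have h2 : RegN ⊤ (fun _ : Z => A.e ∘ ψ.symm) z₀ ((ψ ∘ g z₀ ∘ (A.φ i).symm) x₀) :=
    regN_of_contDiffOn ψ.open_target (contDiffOn_expr_vec A.smooth hψ) z₀ (ψ.map_source hsrc)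
  refine (h2.comp h1).congr ?_
  have hc : ContinuousAt (fun p : Z × Euc n => g p.1 ((A.φ i).symm p.2)) (z₀, x₀) :=
    hg.1.continuousAt.comp (f := fun p : Z × Euc n => (p.1, (A.φ i).symm p.2)) (x := (z₀, x₀))
      (continuous_fst.continuousAt.prodMk
        (((A.φ i).symm.continuousAt hx).comp continuous_snd.continuousAt))
  filter_upwards [hc.eventually (ψ.open_source.mem_nhds hsrc)] with p hp
  simp only [ex, Function.comp_apply]
  rw [ψ.left_inv hp]

/-- the `k`-jet of `e ∘ g` in the chart `φ i`, as a continuous function on `K i` -/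
noncomputable def jet {g : M → M} (hg : ContMDiff (𝓡 n) (𝓡 n) ∞ g) (i : ι) (k : ℕ) :
    C(A.K i, (Euc n) [×k]→L[ℝ] F) where
  toFun x := iteratedFDeriv ℝ k (ex A g i) x
  continuous_toFun := by
    have h2 := ((contDiffOn_ex A hg i).continuousOn_iteratedFDerivWithin (m := k)
      (by exact_mod_cast le_top) (A.φ i).open_target.uniqueDiffOn)
    have h3 : EqOn (iteratedFDerivWithin ℝ k (ex A g i) (A.φ i).target)
        (iteratedFDeriv ℝ k (ex A g i)) (A.φ i).target :=
      iteratedFDerivWithin_of_isOpen k (A.φ i).open_target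
    exact ((h2.congr fun x hx => (h3 hx).symm).mono (A.subset i)).domRestrict

theorem JC.continuous_jet [IsManifold (𝓡 n) ∞ M] {g : Z → M → M} (hg : JC (n := n) g)
    (hgs : ∀ z, ContMDiff (𝓡 n) (𝓡 n) ∞ (g z)) (i : ι) (k : ℕ) :
    Continuous fun z => jet A (hgs z) i k := by
  refine ContinuousMap.continuous_of_continuous_uncurry _ ?_
  rw [continuous_iff_continuousAt]
  rintro ⟨z₀, x₀⟩
  have h1 := (hg.regN_ex A i z₀ x₀ (A.subset i x₀.2)).2 k le_top
  exact ContinuousAt.comp (f := fun p : Z × A.K i => (p.1, (p.2 : Euc n))) (x := (z₀, x₀))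
    (g := fun p : Z × Euc n => iteratedFDeriv ℝ k (ex A (g p.1) i) p.2) h1
    (continuous_fst.prodMk (continuous_subtype_val.comp continuous_snd)).continuousAt

theorem regN_of_continuous_jet {g : Z → M → M} (hgs : ∀ z, ContMDiff (𝓡 n) (𝓡 n) ∞ (g z)) (i : ι)
    (h : ∀ k, Continuous fun z => jet A (hgs z) i k) (z₀ : Z) {x₀ : Euc n}
    (hx : x₀ ∈ interior (A.K i)) : RegN ⊤ (fun z => ex A (g z) i) z₀ x₀ := by
  have hK : ∀ᶠ p : Z × Euc n in 𝓝 (z₀, x₀), p.2 ∈ A.K i :=
    continuous_snd.continuousAt.eventually (mem_interior_iff_mem_nhds.1 hx)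
  have := isCompact_iff_compactSpace.1 (A.compact i)
  refine ⟨?_, fun k _ => ?_⟩
  · filter_upwards [hK] with p hp
    exact (contDiffOn_ex A (hgs p.1) i).contDiffAt
      ((A.φ i).open_target.mem_nhds (A.subset i hp))
  · have h1 : Continuous fun p : Z × A.K i => jet A (hgs p.1) i k p.2 :=
      ((h k).comp continuous_fst).eval continuous_snd
    have h2 : ContinuousOn (fun p : Z × Euc n => iteratedFDeriv ℝ k (ex A (g p.1) i) p.2)
        {p | p.2 ∈ A.K i} := by
      rw [continuousOn_iff_continuous_domRestrict]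
      exact h1.comp (f := fun q : {p : Z × Euc n | p.2 ∈ A.K i} =>
        ((q.1.1, ⟨q.1.2, q.2⟩) : Z × A.K i)) (by fun_prop)
    exact h2.continuousAt hK

theorem jc_of_continuous_jet [IsManifold (𝓡 n) ∞ M] {g : Z → M → M}
    (hgs : ∀ z, ContMDiff (𝓡 n) (𝓡 n) ∞ (g z))
    (h : ∀ i k, Continuous fun z => jet A (hgs z) i k) : JC (n := n) g := by
  have hc : Continuous fun p : Z × M => g p.1 p.2 := by
    rw [A.emb.isInducing.continuous_iff, continuous_iff_continuousAt]
    rintro ⟨z₀, m₀⟩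
    obtain ⟨i, hm, hmK, -⟩ := A.cover m₀
    have h1 := (regN_of_continuous_jet A hgs i (h i) z₀ hmK).continuousAt
    have h2 : ContinuousAt (fun p : Z × M => ex A (g p.1) i (A.φ i p.2)) (z₀, m₀) :=
      ContinuousAt.comp (f := fun p : Z × M => (p.1, A.φ i p.2)) (x := (z₀, m₀))
        (g := fun p : Z × Euc n => ex A (g p.1) i p.2) h1
        (continuous_fst.continuousAt.prodMk
          (((A.φ i).continuousAt hm).comp continuous_snd.continuousAt))
    refine h2.congr ?_
    filter_upwards [continuous_snd.continuousAt.eventually ((A.φ i).open_source.mem_nhds hm)]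
      with p hp
    simp only [ex, Function.comp_apply]
    rw [(A.φ i).left_inv hp]
  refine ⟨hc, fun φ hφ ψ hψ z₀ x₀ hx hy => ?_⟩
  obtain ⟨i, hm, hmK, -⟩ := A.cover (φ.symm x₀)
  obtain ⟨j, hj, -, hjπ⟩ := A.cover (g z₀ (φ.symm x₀))
  -- inner map
  have h1 : RegN ⊤ (fun _ : Z => A.φ i ∘ φ.symm) z₀ x₀ :=
    regN_of_contDiffOn (isOpen_expr continuous_id φ (A.φ i)) (contDiffOn_change hφ (A.mem i)) z₀
      ⟨hx, hm⟩
  -- middle map
  have h2 : RegN ⊤ (fun z => ex A (g z) i) z₀ ((A.φ i ∘ φ.symm) x₀) :=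
    regN_of_continuous_jet A hgs i (h i) z₀ hmK
  -- outer map
  have hopen : IsOpen ((A.π j) ⁻¹' ((A.φ j).target ∩ {x | (A.φ j).symm x ∈ ψ.source})) :=
    (isOpen_expr continuous_id (A.φ j) ψ).preimage (A.π j).continuous
  have h3' : ContDiffOn ℝ ∞ ((ψ ∘ (A.φ j).symm) ∘ A.π j)
      ((A.π j) ⁻¹' ((A.φ j).target ∩ {x | (A.φ j).symm x ∈ ψ.source})) :=
    (contDiffOn_change (A.mem j) hψ).comp (A.π j).contDiff.contDiffOn fun x hx => hx
  have he : (ex A (g z₀) i ∘ A.φ i ∘ φ.symm) x₀ = A.e (g z₀ (φ.symm x₀)) := by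
    simp only [ex, Function.comp_apply]
    rw [(A.φ i).left_inv hm]
  have h3 : RegN ⊤ (fun _ : Z => (ψ ∘ (A.φ j).symm) ∘ A.π j) z₀
      ((ex A (g z₀) i ∘ A.φ i ∘ φ.symm) x₀) := by
    refine regN_of_contDiffOn hopen h3' z₀ ?_
    rw [he]
    have h4 := hjπ.self_of_nhds
    refine ⟨?_, ?_⟩
    · rw [h4]; exact (A.φ j).map_source hj
    · show (A.φ j).symm (A.π j (A.e (g z₀ (φ.symm x₀)))) ∈ ψ.source
      rw [h4, (A.φ j).left_inv hj]
      exact hy
  refine (h3.comp (h2.comp h1)).congr ?_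
  have hcc : ContinuousAt (fun p : Z × Euc n => g p.1 (φ.symm p.2)) (z₀, x₀) :=
    hc.continuousAt.comp (f := fun p : Z × Euc n => (p.1, φ.symm p.2)) (x := (z₀, x₀))
      (continuous_fst.continuousAt.prodMk
        ((φ.symm.continuousAt hx).comp continuous_snd.continuousAt))
  have hcs : ContinuousAt (fun p : Z × Euc n => φ.symm p.2) (z₀, x₀) :=
    (φ.symm.continuousAt hx).comp continuous_snd.continuousAt
  filter_upwards [hcs.eventually ((A.φ i).open_source.mem_nhds hm),
    hcc.eventually ((A.φ j).open_source.mem_nhds hj), hcc.eventually hjπ] with p hp1 hp2 hp3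
  simp only [ex, Function.comp_apply]
  rw [(A.φ i).left_inv hp1, hp3, (A.φ j).left_inv hp2]

end Jet

section Limit

variable {n : ℕ} {M : Type*} [TopologicalSpace M] [ChartedSpace (Euc n) M]
variable {ι F : Type*} [NormedAddCommGroup F] [NormedSpace ℝ F] (A : GoodCover n M ι F)

/-- extension by zero of a function on `K i` -/
noncomputable def ext0 {G : Type*} [Zero G] {s : Set (Euc n)} (u : s → G) : Euc n → G := by
  classical
  exact fun x => if h : x ∈ s then u ⟨x, h⟩ else 0

theorem ext0_apply {G : Type*} [Zero G] {s : Set (Euc n)} (u : s → G) (x : s) :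
    ext0 u x = u x := by
  simp [ext0]

theorem ext0_continuousOn {G : Type*} [Zero G] [TopologicalSpace G] {s : Set (Euc n)} {u : s → G}
    (hu : Continuous u) : ContinuousOn (ext0 u) s := by
  rw [continuousOn_iff_continuous_domRestrict]
  convert hu using 1
  funext x
  exact ext0_apply u x

/-- `Diff^∞(M)` is complete: limits of jets are jets. -/
theorem exists_limit [Finite ι] [IsManifold (𝓡 n) ∞ M] {g : ℕ → M → M}
    (hgs : ∀ N, ContMDiff (𝓡 n) (𝓡 n) ∞ (g N))
    (u : (i : ι) → (k : ℕ) → C(A.K i, (Euc n) [×k]→L[ℝ] F))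
    (hu : ∀ i k, Tendsto (fun N => jet A (hgs N) i k) atTop (𝓝 (u i k))) :
    ∃ (g' : M → M) (hg' : ContMDiff (𝓡 n) (𝓡 n) ∞ g'), (∀ i k, jet A hg' i k = u i k) ∧
      TendstoUniformly (fun N m => A.e (g N m)) (fun m => A.e (g' m)) atTop := by
  have hcomp : ∀ i, CompactSpace (A.K i) := fun i => isCompact_iff_compactSpace.1 (A.compact i)
  let v : (i : ι) → (k : ℕ) → Euc n → (Euc n) [×k]→L[ℝ] F := fun i k => ext0 (u i k)
  have hv : ∀ i k (x : A.K i), v i k x = u i k x := fun i k x => ext0_apply _ x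
  have hvc : ∀ i k, ContinuousOn (v i k) (A.K i) := fun i k => ext0_continuousOn (u i k).continuous
  have hunif : ∀ i k, TendstoUniformlyOn (fun N => iteratedFDeriv ℝ k (ex A (g N) i)) (v i k) atTop
      (A.K i) := by
    intro i k
    have h1 := ContinuousMap.tendsto_iff_tendstoUniformly.1 (hu i k)
    rw [tendstoUniformlyOn_iff_tendstoUniformly_comp_coe]
    have e2 : v i k ∘ ((↑) : A.K i → Euc n) = ⇑(u i k) := funext (hv i k)
    rw [e2]
    exact h1
  have hpt : ∀ i, ∀ x ∈ A.K i, Tendsto (fun N => ex A (g N) i x) atTop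
      (𝓝 ((v i 0 x).curry0)) := by
    intro i x hx
    have h1 := (hunif i 0).tendsto_at hx
    have h2 := ((continuousMultilinearCurryFin0 ℝ (Euc n) F).continuous.tendsto _).comp h1
    exact h2
  -- the limit map
  have hlim : ∀ m : M, ∃ y : M, Tendsto (fun N => A.e (g N m)) atTop (𝓝 (A.e y)) := by
    intro m
    obtain ⟨i, hm, hmK, -⟩ := A.cover m
    have h1 := hpt i _ (interior_subset hmK)
    have h2 : (fun N => ex A (g N) i (A.φ i m)) = fun N => A.e (g N m) := by
      funext N
      simp only [ex, Function.comp_apply]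
      rw [(A.φ i).left_inv hm]
    rw [h2] at h1
    have h3 : (v i 0 (A.φ i m)).curry0 ∈ range A.e :=
      A.emb.isClosed_range.mem_of_tendsto h1 (Eventually.of_forall fun N => mem_range_self _)
    obtain ⟨y, hy⟩ := h3
    exact ⟨y, by rwa [hy]⟩
  choose g' hg'lim using hlim
  have hex : ∀ i, ∀ x ∈ A.K i, ex A g' i x = (v i 0 x).curry0 := fun i x hx =>
    tendsto_nhds_unique (hg'lim ((A.φ i).symm x)) (hpt i x hx)
  have hT : ∀ i, HasFTaylorSeriesUpToOn ∞ (ex A g' i) (fun x k => v i k x)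
      (interior (A.K i)) := by
    intro i
    refine ⟨fun x hx => (hex i x (interior_subset hx)).symm, fun k _ x hx => ?_, fun k _ =>
      (hvc i k).mono interior_subset⟩
    apply HasFDerivAt.hasFDerivWithinAt
    have h1 : TendstoUniformlyOn (fun N x => fderiv ℝ (iteratedFDeriv ℝ k (ex A (g N) i)) x)
        (fun x => (v i (k + 1) x).curryLeft) atTop (interior (A.K i)) := by
      have h2 := (hunif i (k + 1)).mono (interior_subset (s := A.K i))
      have h3 := (continuousMultilinearCurryLeftEquiv ℝ (fun _ : Fin (k + 1) => Euc n)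
        F).isometry.uniformContinuous.comp_tendstoUniformlyOn h2
      refine h3.congr (Eventually.of_forall fun N x _ => ?_)
      rw [fderiv_iteratedFDeriv]
    refine hasFDerivAt_of_tendstoUniformlyOn isOpen_interior h1 (fun N x hx => ?_)
      (fun x hx => (hunif i k).tendsto_at (interior_subset hx)) hx
    have h2 : ContDiffAt ℝ ∞ (ex A (g N) i) x := (contDiffOn_ex A (hgs N) i).contDiffAt
      ((A.φ i).open_target.mem_nhds (A.subset i (interior_subset hx)))
    have h3 : DifferentiableAt ℝ (iteratedFDeriv ℝ k (ex A (g N) i)) x :=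
      h2.differentiableAt_iteratedFDeriv (by exact_mod_cast WithTop.coe_lt_top _)
    exact h3.hasFDerivAt
  have hcd : ∀ i, ContDiffOn ℝ ∞ (ex A g' i) (interior (A.K i)) := fun i => (hT i).contDiffOn
  -- smoothness of the limit
  have hsm : ContMDiff (𝓡 n) (𝓡 n) ∞ g' := by
    intro m
    obtain ⟨i, hm, hmK, -⟩ := A.cover m
    obtain ⟨j, hj, -, hjπ⟩ := A.cover (g' m)
    have h1 : ContMDiffAt (𝓡 n) 𝓘(ℝ, F) ∞ (A.e ∘ g') m := by
      have h2 : ContMDiffAt (𝓡 n) 𝓘(ℝ, F) ∞ (ex A g' i ∘ A.φ i) m :=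
        ((hcd i).contDiffAt (isOpen_interior.mem_nhds hmK)).contMDiffAt.comp m
          (contMDiffAt_of_mem_maximalAtlas (A.mem i) hm)
      refine h2.congr_of_eventuallyEq ?_
      filter_upwards [(A.φ i).open_source.mem_nhds hm] with m' hm'
      simp only [ex, Function.comp_apply]
      rw [(A.φ i).left_inv hm']
    have hc : ContinuousAt g' m := A.emb.isInducing.continuousAt_iff.2 h1.continuousAt
    have h2 : ContMDiffAt (𝓡 n) 𝓘(ℝ, Euc n) ∞ (A.π j ∘ (A.e ∘ g')) m :=
      (A.π j).contMDiff.contMDiffAt.comp m h1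
    have h3 : A.π j (A.e (g' m)) = A.φ j (g' m) := hjπ.self_of_nhds
    have h4 : ContMDiffAt (𝓡 n) (𝓡 n) ∞ ((A.φ j).symm ∘ (A.π j ∘ (A.e ∘ g'))) m := by
      refine ContMDiffAt.comp m ?_ h2
      apply contMDiffAt_symm_of_mem_maximalAtlas (A.mem j)
      simp only [Function.comp_apply]
      rw [h3]
      exact (A.φ j).map_source hj
    refine h4.congr_of_eventuallyEq ?_
    filter_upwards [hc.eventually hjπ, hc.eventually ((A.φ j).open_source.mem_nhds hj)]
      with m' hm1 hm2
    simp only [Function.comp_apply]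
    rw [hm1, (A.φ j).left_inv hm2]
  refine ⟨g', hsm, fun i k => ?_, ?_⟩
  · ext1 x
    have h1 : EqOn (iteratedFDeriv ℝ k (ex A g' i)) (v i k) (A.K i) := by
      refine Set.EqOn.of_subset_closure (s := interior (A.K i)) ?_ ?_ (hvc i k) interior_subset
        (A.subset_closure i)
      · intro x hx
        have h2 := (hT i).eq_iteratedFDerivWithin_of_uniqueDiffOn (m := k)
          (by exact_mod_cast le_top) isOpen_interior.uniqueDiffOn hx
        rw [← iteratedFDerivWithin_of_isOpen k isOpen_interior hx]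
        exact h2.symm
      · have h2 := (jet A hsm i k).continuous
        rw [continuousOn_iff_continuous_domRestrict]
        exact h2
    exact (h1 x.2).trans (hv i k x)
  · rw [Metric.tendstoUniformly_iff]
    intro ε hε
    have h1 : ∀ i, ∀ᶠ N in atTop, ∀ x ∈ A.K i, dist (ex A g' i x) (ex A (g N) i x) < ε := by
      intro i
      have h2 := (continuousMultilinearCurryFin0 ℝ (Euc n)
        F).isometry.uniformContinuous.comp_tendstoUniformlyOn (hunif i 0)
      rw [Metric.tendstoUniformlyOn_iff] at h2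
      filter_upwards [h2 ε hε] with N hN x hx
      rw [hex i x hx]
      exact hN x hx
    filter_upwards [eventually_all.2 h1] with N hN m
    obtain ⟨i, hm, hmK, -⟩ := A.cover m
    have h2 := hN i _ (interior_subset hmK)
    simp only [ex, Function.comp_apply] at h2
    rwa [(A.φ i).left_inv hm] at h2

end Limit

section Polish

variable {n : ℕ}

theorem finiteDimensional_multilinear (n k : ℕ) (F : Type*) [NormedAddCommGroup F]
    [NormedSpace ℝ F] [FiniteDimensional ℝ F] : FiniteDimensional ℝ ((Euc n) [×k]→L[ℝ] F) := by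
  have : FiniteDimensional ℝ (MultilinearMap ℝ (fun _ : Fin k => Euc n) F) := by infer_instance
  let L : ((Euc n) [×k]→L[ℝ] F) →ₗ[ℝ] MultilinearMap ℝ (fun _ : Fin k => Euc n) F :=
    { toFun := fun f => f.toMultilinearMap
      map_add' := fun _ _ => rfl
      map_smul' := fun _ _ => rfl }
  exact FiniteDimensional.of_injective L ContinuousMultilinearMap.toMultilinearMap_injective

variable {M : Type*} [TopologicalSpace M] [ChartedSpace (Euc n) M]
variable {ι F : Type*} [NormedAddCommGroup F] [NormedSpace ℝ F] (A : GoodCover n M ι F)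

/-- the space of jets -/
abbrev JetSpace : Type _ := (i : ι) → (k : ℕ) → C(A.K i, (Euc n) [×k]→L[ℝ] F)

/-- the embedding of `Diff^∞(M)` into the space of jets -/
noncomputable def jets (g : DiffInf n M) : JetSpace A × JetSpace A :=
  (fun i k => jet A g.contMDiff i k, fun i k => jet A g.symm.contMDiff i k)

theorem jets_inj_aux {g g' : M → M} (hg : ContMDiff (𝓡 n) (𝓡 n) ∞ g)
    (hg' : ContMDiff (𝓡 n) (𝓡 n) ∞ g') (h : ∀ i k, jet A hg i k = jet A hg' i k) : g = g' := by
  funext m
  obtain ⟨i, hm, hmK, -⟩ := A.cover m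
  have h1 : jet A hg i 0 ⟨A.φ i m, interior_subset hmK⟩ =
      jet A hg' i 0 ⟨A.φ i m, interior_subset hmK⟩ := by rw [h]
  have h2 : iteratedFDeriv ℝ 0 (ex A g i) (A.φ i m) = iteratedFDeriv ℝ 0 (ex A g' i) (A.φ i m) := h1
  have h3 := congrArg (fun q => q 0) h2
  simp only [iteratedFDeriv_zero_apply, ex, Function.comp_apply] at h3
  rw [(A.φ i).left_inv hm] at h3
  exact A.emb.injective h3

theorem isClosedEmbedding_jets [Finite ι] [FiniteDimensional ℝ F] [IsManifold (𝓡 n) ∞ M]
    [CompactSpace M] [T2Space M] : IsClosedEmbedding (jets A) := by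
  have : Countable ι := Finite.to_countable
  have hcomp : ∀ i, CompactSpace (A.K i) := fun i => isCompact_iff_compactSpace.1 (A.compact i)
  have hid : JC (n := n) (fun g : DiffInf n M => (g : M → M)) := jc_id
  have hcont : Continuous (jets A) := by
    refine Continuous.prodMk ?_ ?_
    · exact continuous_pi fun i => continuous_pi fun k => hid.continuous_jet A _ i k
    · exact continuous_pi fun i => continuous_pi fun k =>
        (JC.inv hid).continuous_jet A (fun g => g.symm.contMDiff) i k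
  have hind : IsInducing (jets A) := by
    constructor
    refine le_antisymm (continuous_iff_le_induced.1 hcont) ?_
    rw [← continuous_id_iff_le]
    let t : TopologicalSpace (DiffInf n M) := TopologicalSpace.induced (jets A) inferInstance
    have hj : @Continuous _ _ t _ (jets A) := continuous_induced_dom
    refine @continuous_of_jc n M _ _ (DiffInf n M) t _ (fun g => g) ?_
    refine @jc_of_continuous_jet n M _ _ (DiffInf n M) t ι F _ _ A _ (fun g => (g : M → M))
      (fun g => g.contMDiff) fun i k => ?_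
    exact (continuous_apply k).comp ((continuous_apply i).comp (continuous_fst.comp hj))
  refine ⟨⟨hind, ?_⟩, ?_⟩
  · intro g g' h
    have h1 : (g : M → M) = g' := jets_inj_aux A g.contMDiff g'.contMDiff fun i k => by
      have := congrArg (fun q => q.1 i k) h
      exact this
    exact DFunLike.coe_injective h1
  · apply IsSeqClosed.isClosed
    intro q u hq hu
    choose g hg using hq
    have hu1 : ∀ i k, Tendsto (fun N => jet A (g N).contMDiff i k) atTop (𝓝 (u.1 i k)) := by
      intro i k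
      have hc : Continuous fun p : JetSpace A × JetSpace A => p.1 i k :=
        (continuous_apply_apply i k).comp continuous_fst
      have h1 : Tendsto (fun N => (q N).1 i k) atTop (𝓝 (u.1 i k)) := (hc.tendsto u).comp hu
      refine h1.congr fun N => ?_
      rw [← hg N]
      rfl
    have hu2 : ∀ i k, Tendsto (fun N => jet A (g N).symm.contMDiff i k) atTop (𝓝 (u.2 i k)) := by
      intro i k
      have hc : Continuous fun p : JetSpace A × JetSpace A => p.2 i k :=
        (continuous_apply_apply i k).comp continuous_snd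
      have h1 : Tendsto (fun N => (q N).2 i k) atTop (𝓝 (u.2 i k)) := (hc.tendsto u).comp hu
      refine h1.congr fun N => ?_
      rw [← hg N]
      rfl
    obtain ⟨a, ha, haj, hau⟩ := exists_limit A (fun N => (g N).contMDiff) u.1 hu1
    obtain ⟨b, hb, hbj, hbu⟩ := exists_limit A (fun N => (g N).symm.contMDiff) u.2 hu2
    have hal : ∀ m, Tendsto (fun N => g N m) atTop (𝓝 (a m)) := fun m => by
      rw [A.emb.isInducing.tendsto_nhds_iff]
      exact hau.tendsto_at m
    have hbl : ∀ m, Tendsto (fun N => (g N).symm m) atTop (𝓝 (b m)) := fun m => by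
      rw [A.emb.isInducing.tendsto_nhds_iff]
      exact hbu.tendsto_at m
    have hab : ∀ m, a (b m) = m := by
      intro m
      have h1 : Tendsto (fun N => A.e (g N ((g N).symm m))) atTop (𝓝 (A.e (a (b m)))) :=
        hau.tendstoLocallyUniformly.tendsto_comp
          (A.emb.continuous.comp ha.continuous).continuousAt (hbl m)
      simp only [Diffeomorph.apply_symm_apply] at h1
      exact (A.emb.injective (tendsto_nhds_unique h1 tendsto_const_nhds))
    have hba : ∀ m, b (a m) = m := by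
      intro m
      have h1 : Tendsto (fun N => A.e ((g N).symm (g N m))) atTop (𝓝 (A.e (b (a m)))) :=
        hbu.tendstoLocallyUniformly.tendsto_comp
          (A.emb.continuous.comp hb.continuous).continuousAt (hal m)
      simp only [Diffeomorph.symm_apply_apply] at h1
      exact (A.emb.injective (tendsto_nhds_unique h1 tendsto_const_nhds))
    let G : DiffInf n M :=
      { toFun := a
        invFun := b
        left_inv := hba
        right_inv := hab
        contMDiff_toFun := ha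
        contMDiff_invFun := hb }
    refine ⟨G, ?_⟩
    refine Prod.ext ?_ ?_
    · funext i k
      exact haj i k
    · funext i k
      exact hbj i k

/-- `Diff^∞(M)` is a Polish space. -/
theorem polishSpace_diffInf [IsManifold (𝓡 n) ∞ M] [CompactSpace M] [T2Space M] :
    PolishSpace (DiffInf n M) := by
  obtain ⟨ι, hι, ⟨A⟩⟩ := exists_goodCover (n := n) (M := M)
  have hcomp : ∀ i, CompactSpace (A.K i) := fun i => isCompact_iff_compactSpace.1 (A.compact i)
  have hfd : ∀ k, FiniteDimensional ℝ ((Euc n) [×k]→L[ℝ] (ι → Euc n × ℝ)) := fun k =>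
    finiteDimensional_multilinear n k _
  have hps : ∀ k, ProperSpace ((Euc n) [×k]→L[ℝ] (ι → Euc n × ℝ)) := fun k =>
    FiniteDimensional.proper ℝ _
  have hpol : ∀ k, PolishSpace ((Euc n) [×k]→L[ℝ] (ι → Euc n × ℝ)) := fun k => inferInstance
  have hP : ∀ (i : ι) (k : ℕ), PolishSpace C(A.K i, (Euc n) [×k]→L[ℝ] (ι → Euc n × ℝ)) :=
    fun i k => polishSpace_continuousMap _ _
  have hJ : PolishSpace (JetSpace A) := inferInstance
  exact (isClosedEmbedding_jets A).polishSpace

end Polish

section Result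

variable {n : ℕ} {M : Type*} [TopologicalSpace M] [ChartedSpace (Euc n) M]

/-- the inclusion of `Diff^∞(M)` into the space of continuous self-maps -/
noncomputable def toCM (g : DiffInf n M) : C(M, M) := ⟨g, g.continuous⟩

theorem continuous_toCM [IsManifold (𝓡 n) ∞ M] : Continuous (toCM : DiffInf n M → C(M, M)) :=
  ContinuousMap.continuous_of_continuous_uncurry _ (jc_id (n := n) (M := M)).1

attribute [local instance] homeoTopology

/-- **Topological conjugacy is Borel on a dense `Gδ` set of diffeomorphisms.**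

Let `M` be a closed smooth manifold of dimension `n`. Every dense `Gδ` set `R` of smooth
diffeomorphisms of `M` contains a dense `Gδ` set `S` such that the set of all pairs
`(f, g) ∈ S × S` of topologically conjugate diffeomorphisms is a Borel subset of `S × S`. -/
theorem main_theorem (n : ℕ) (M : Type*) [TopologicalSpace M] [T2Space M] [CompactSpace M]
    [ChartedSpace (Euc n) M] [IsManifold (𝓡 n) ∞ M] (R : Set (DiffInf n M)) (hR : IsGδ R)
    (hRd : Dense R) :
    ∃ S ⊆ R, IsGδ S ∧ Dense S ∧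
      MeasurableSet[borel (S × S)] {p : S × S | TopConj (p.1 : DiffInf n M) (p.2 : DiffInf n M)} := by
  have hX : PolishSpace (DiffInf n M) := polishSpace_diffInf
  have hMsc : SecondCountableTopology M := by
    obtain ⟨ι, hι, ⟨A⟩⟩ := exists_goodCover (n := n) (M := M)
    exact A.emb.isEmbedding.secondCountableTopology
  have hM : PolishSpace M := by
    let _ := metrizableSpaceMetric M
    infer_instance
  have hY : PolishSpace C(M, M) := polishSpace_continuousMap M M
  have hG : PolishSpace (M ≃ₜ M) := homeo_polishSpace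
  obtain ⟨S, hSR, hSG, hSd, hSB⟩ := exists_borel (conjAct (M := M)) continuous_conjAct conjAct_one
    conjAct_mul toCM continuous_toCM R hR hRd
  refine ⟨S, hSR, hSG, hSd, ?_⟩
  have hc : Continuous fun p : S × S => ((p.1 : DiffInf n M), toCM (p.2 : DiffInf n M)) :=
    (continuous_subtype_val.comp continuous_fst).prodMk
      (continuous_toCM.comp (continuous_subtype_val.comp continuous_snd))
  let _ : MeasurableSpace (S × S) := borel (S × S)
  have _ : BorelSpace (S × S) := ⟨rfl⟩
  let _ : MeasurableSpace (DiffInf n M × C(M, M)) := borel _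
  have _ : BorelSpace (DiffInf n M × C(M, M)) := ⟨rfl⟩
  have h := hc.measurable hSB
  convert h using 1
  ext ⟨f, g⟩
  constructor
  · rintro ⟨h, hh⟩
    refine ⟨f.2, h, ?_⟩
    ext x
    show h ((f : DiffInf n M) (h.symm x)) = (g : DiffInf n M) x
    rw [hh, h.apply_symm_apply]
  · rintro ⟨-, h, hh⟩
    refine ⟨h, fun x => ?_⟩
    have h1 := DFunLike.congr_fun hh (h x)
    have h2 : h ((f : DiffInf n M) (h.symm (h x))) = (g : DiffInf n M) (h x) := h1
    rwa [h.symm_apply_apply] at h2

end Result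


end Pool.Agent.Lib.Helper37.ConjBorel
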